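import Mathlib
import Pool.Agent.LRE.E1

set_option autoImplicit false

/-!
# [LRP-P1] the pivot structure of a nested order with few minimal points
-/

namespace Pool.Agent.LRP

open Finset
open Pool.Agent.MP_f1b527_co
open Pool.Agent.LRE

section
variable {X : Type*} [DecidableEq X] (r : X → X → Prop) [DecidableRel r]

/-- `C` = points below the pivot, `G` = the other early points, `Y` = the rest -/
structure Piv (C G Y : Finset X) : Prop where
  cg : Disjoint C G
  cy : Disjoint C Y
  gy : Disjoint G Y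
  cne : C.Nonempty
  cbel : ∀ x ∈ C, ∀ z ∈ Y, r x z
  gmax : ∀ x ∈ G, ∀ z ∈ C ∪ G, ¬ r x z
  ydn : ∀ z ∈ Y, ∀ x ∈ C ∪ G, ¬ r z x
  gdef : ∀ x ∈ G, ∃ z ∈ Y, ¬ r x z

end

open scoped Classical in
/-- `tle r x y` means (down-set of `x`) ⊆ (down-set of `y`) and (up-set of `y`) ⊆ (up-set of `x`).
`exists_initial` (Semi.lean, with `S = univ`, `R = l`) gives `A`, `|A| = l`, `tle r a z` for
`a ∈ A`, `z ∉ A`. Put `Y = univ \ A` (nonempty), `y ∈ Y` with `tle r y z` for all `z ∈ Y`
(`exists_tle_min`), `C = A.filter (r · y)`, `G = A \ C`.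
* `x ∈ C`, `z ∈ Y`: `r x y` and `tle r y z` give `r x z`.
* `z ∈ Y`, `x ∈ A`: `r z x` and `tle r x z` would give `r z z`.
* `x ∈ G`, `z ∈ A`: `r x z` and `tle r z y` would give `r x y`.
* `x ∈ G`: the point `y` satisfies `¬ r x y`.
* `C` nonempty: otherwise nothing is below `y` (nothing of `A`, and nothing of `Y`: `r z y` and
  `tle r y z` give `r z z`), and each `x ∈ A` has `tle r x y`, so nothing is below `x`: all points of
  `insert y A` are minimal, `l + 1 ≤ (mins r univ).card`. -/
theorem exists_pivot {n : ℕ} (r : Fin n → Fin n → Prop) (hirr : ∀ x, ¬ r x x)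
    (ht : ∀ x y, tle r x y ∨ tle r y x) (l : ℕ) (hl : l < n) (hmin : (mins r univ).card ≤ l) :
    ∃ C G Y : Finset (Fin n), Piv r C G Y ∧ (C ∪ G) ∪ Y = univ ∧ C.card + G.card = l := by
  obtain ⟨A, hA, hAc, hAle⟩ := exists_initial r ht (univ : Finset (Fin n)) l (by
    rw [Finset.card_univ, Fintype.card_fin]
    omega)
  have hYne : ((univ : Finset (Fin n)) \ A).Nonempty := by
    rw [← Finset.card_pos, Finset.card_sdiff_of_subset hA, Finset.card_univ, Fintype.card_fin]
    omega
  obtain ⟨y, hyY, hy⟩ := exists_tle_min r ht _ hYne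
  set Y := (univ : Finset (Fin n)) \ A with hY
  have hyA : y ∉ A := (Finset.mem_sdiff.1 hyY).2
  have hCG : A.filter (fun x => r x y) ∪ (A \ A.filter (fun x => r x y)) = A :=
    Finset.union_sdiff_of_subset (Finset.filter_subset _ _)
  have hdis : Disjoint A Y := Finset.disjoint_sdiff
  have hbelow : ∀ z, z ∉ A → ¬ r z y := by
    intro z hz hzy
    have h1 : z ∈ Y := Finset.mem_sdiff.2 ⟨Finset.mem_univ z, hz⟩
    exact hirr z ((hy z h1).1 z hzy)
  refine ⟨A.filter (fun x => r x y), A \ A.filter (fun x => r x y), Y, ?_, ?_, ?_⟩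
  · refine ⟨Finset.disjoint_sdiff, Finset.disjoint_of_subset_left (Finset.filter_subset _ _) hdis,
      Finset.disjoint_of_subset_left Finset.sdiff_subset hdis, ?_, ?_, ?_, ?_, ?_⟩
    · by_contra hne
      rw [Finset.not_nonempty_iff_eq_empty] at hne
      have h1 : ∀ z, ¬ r z y := by
        intro z hzy
        by_cases hz : z ∈ A
        · have : z ∈ A.filter (fun x => r x y) := Finset.mem_filter.2 ⟨hz, hzy⟩
          rw [hne] at this
          exact absurd this (Finset.notMem_empty z)
        · exact hbelow z hz hzy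
      have h2 : insert y A ⊆ mins r univ := by
        intro x hx
        rw [mem_mins]
        refine ⟨Finset.mem_univ x, fun z _ hzx => ?_⟩
        rcases Finset.mem_insert.1 hx with h3 | h3
        · rw [h3] at hzx
          exact h1 z hzx
        · exact h1 z ((hAle x h3 y hyY).1 z hzx)
      have h3 := Finset.card_le_card h2
      rw [Finset.card_insert_of_notMem hyA, hAc] at h3
      omega
    · intro x hx z hz
      exact (hy z hz).1 x (Finset.mem_filter.1 hx).2
    · intro x hx z hz hxz
      rw [hCG] at hz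
      have h1 := Finset.mem_sdiff.1 hx
      exact h1.2 (Finset.mem_filter.2 ⟨h1.1, (hAle z hz y hyY).1 x hxz⟩)
    · intro z hz x hx hzx
      rw [hCG] at hx
      exact hirr z ((hAle x hx z hz).1 z hzx)
    · intro x hx
      have h1 := Finset.mem_sdiff.1 hx
      exact ⟨y, hyY, fun h2 => h1.2 (Finset.mem_filter.2 ⟨h1.1, h2⟩)⟩
  · rw [hCG, hY]
    exact Finset.union_sdiff_of_subset hA
  · have h1 := Finset.card_union_of_disjoint
      (Finset.disjoint_sdiff : Disjoint (A.filter (fun x => r x y)) (A \ A.filter (fun x => r x y)))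
    rw [hCG, hAc] at h1
    exact h1.symm

end Pool.Agent.LRP
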