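import Mathlib
import Pool.Agent.LRP.P1

set_option autoImplicit false

/-!
# [LRP-P2] the pivot bound
-/

namespace Pool.Agent.LRP

open Finset
open Pool.Agent.MP_f1b527_co
open Pool.Agent.LRE

variable {X : Type*} [DecidableEq X] (r : X → X → Prop) [DecidableRel r]

/-- As long as `Z ⊆ C ∪ G` meets `C`, every point of `Y` is above a point of `Z`, and no point of
`Y` is below a point of `Z`. -/
theorem mins_pivot {C G Y : Finset X} (h : Piv r C G Y) (Z : Finset X) (hZ : Z ⊆ C ∪ G)
    (hZC : ∃ x ∈ C, x ∈ Z) : mins r (Z ∪ Y) = mins r Z := by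
  obtain ⟨x, hxC, hxZ⟩ := hZC
  ext v
  rw [mem_mins, mem_mins]
  constructor
  · rintro ⟨h1, h2⟩
    rcases Finset.mem_union.1 h1 with h3 | h3
    · exact ⟨h3, fun y hy => h2 y (Finset.mem_union_left _ hy)⟩
    · exact absurd (h.cbel x hxC v h3) (h2 x (Finset.mem_union_left _ hxZ))
  · rintro ⟨h1, h2⟩
    refine ⟨Finset.mem_union_left _ h1, fun y hy => ?_⟩
    rcases Finset.mem_union.1 hy with h3 | h3
    · exact h2 y h3
    · exact h.ydn y h3 v (hZ h1)

/-- `T` without relations has `|T|!` orders (`lin_rec`, `mins r T = T`, induction on `|T|`). -/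
theorem lin_antichain (T : Finset X) (h : ∀ x ∈ T, ∀ y ∈ T, ¬ r x y) :
    lin r T = T.card.factorial := by
  induction hn : T.card generalizing T with
  | zero =>
    rw [Finset.card_eq_zero] at hn
    subst hn
    rw [lin_empty]
    rfl
  | succ n ih =>
    have hT : T.Nonempty := by
      rw [← Finset.card_pos]
      omega
    have hm : mins r T = T := by
      ext v
      rw [mem_mins]
      exact ⟨fun h1 => h1.1, fun h1 => ⟨h1, fun y hy => h y hy v h1⟩⟩
    rw [lin_rec r hT, hm]
    have h1 : ∀ x ∈ T, lin r (T.erase x) = n.factorial := by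
      intro x hx
      apply ih (T.erase x)
      · intro a ha b hb
        exact h a (Finset.mem_of_mem_erase ha) b (Finset.mem_of_mem_erase hb)
      · rw [Finset.card_erase_of_mem hx, hn]
        rfl
    rw [Finset.sum_congr rfl h1, Finset.sum_const, hn, smul_eq_mul, Nat.factorial_succ]

/-- the weights of the induction step -/
theorem p2_sum (Zc T : Finset X) (hd : Disjoint Zc T) (hne : Zc.Nonempty) :
    ∑ x ∈ Zc ∪ T, (if x ∈ Zc then (T.card : ℝ) / Zc.card
      else ((T.card : ℝ) - 1) / ((Zc.card : ℝ) + 1)) =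
      ((Zc.card : ℝ) + T.card) * (T.card / ((Zc.card : ℝ) + 1)) := by
  have hz : (0 : ℝ) < Zc.card := by exact_mod_cast hne.card_pos
  rw [Finset.sum_union hd]
  have h1 : ∑ x ∈ Zc, (if x ∈ Zc then (T.card : ℝ) / Zc.card
      else ((T.card : ℝ) - 1) / ((Zc.card : ℝ) + 1)) = T.card := by
    rw [Finset.sum_congr rfl fun x hx => if_pos hx, Finset.sum_const, nsmul_eq_mul]
    field_simp
  have h2 : ∑ x ∈ T, (if x ∈ Zc then (T.card : ℝ) / Zc.card
      else ((T.card : ℝ) - 1) / ((Zc.card : ℝ) + 1)) =
      T.card * (((T.card : ℝ) - 1) / ((Zc.card : ℝ) + 1)) := by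
    rw [Finset.sum_congr rfl fun x hx => if_neg fun hx2 =>
      (Finset.disjoint_left.1 hd hx2 hx), Finset.sum_const, nsmul_eq_mul]
  rw [h1, h2]
  field_simp
  ring

/-- Main pivot bound.
Induction on `|Zc| + |T|`. `Zc = ∅`: the hypothesis and `lin_antichain` (`T ⊆ G`, `gmax`).
`Zc ≠ ∅`: `lin_rec` for `Zc ∪ T ∪ Y` and `mins_pivot`:
`lin (Zc ∪ T ∪ Y) = ∑_{x ∈ mins (Zc ∪ T)} lin ((Zc ∪ T ∪ Y).erase x)`. For `x ∈ Zc` the induction
hypothesis for `(Zc.erase x, T)` gives `≤ W (α lin((Zc ∪ T).erase x) + β (N-1)! |T|/|Zc|)`,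
`N = |Zc| + |T|`; for `x ∈ T` it gives `≤ W (α lin(..) + β (N-1)! (|T|-1)/(|Zc|+1))`.
The `α` terms add up to `α lin (Zc ∪ T)` (`lin_rec`), the `β` terms (all `≥ 0`, so the sum over
`mins` is at most the sum over all of `Zc ∪ T`) to at most
`β (N-1)! (|T| + |T| (|T|-1)/(|Zc|+1)) = β N! |T|/(|Zc|+1)`. -/
theorem pivot_bound {C G Y : Finset X} (h : Piv r C G Y) (W α β : ℝ) (hW : 0 ≤ W) (hβ : 0 ≤ β)
    (hbase : ∀ T ⊆ G, (lin r (T ∪ Y) : ℝ) ≤ W * (T.card.factorial * (α + β * T.card))) :
    ∀ Zc ⊆ C, ∀ T ⊆ G, (lin r ((Zc ∪ T) ∪ Y) : ℝ) ≤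
      W * (α * lin r (Zc ∪ T) +
        β * ((Zc.card + T.card).factorial : ℝ) * (T.card / ((Zc.card : ℝ) + 1))) := by
  intro Zc hZc T hT
  induction hn : (Zc.card + T.card) using Nat.strong_induction_on generalizing Zc T with
  | _ n ih =>
    subst hn
    have hd : Disjoint Zc T :=
      Finset.disjoint_of_subset_left hZc (Finset.disjoint_of_subset_right hT h.cg)
    rcases Finset.eq_empty_or_nonempty Zc with h0 | h0
    · subst h0
      have h1 := hbase T hT
      have h2 : lin r T = T.card.factorial := by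
        apply lin_antichain
        intro x hx y hy
        exact h.gmax x (hT hx) y (Finset.mem_union_right _ (hT hy))
      rw [Finset.empty_union, h2, Finset.card_empty, zero_add]
      refine h1.trans (le_of_eq ?_)
      push_cast
      ring
    · have hz : (0 : ℝ) < Zc.card := by exact_mod_cast h0.card_pos
      have hcard : (Zc ∪ T).card = Zc.card + T.card := Finset.card_union_of_disjoint hd
      have hsub : Zc ∪ T ⊆ C ∪ G := Finset.union_subset_union hZc hT
      obtain ⟨x0, hx0⟩ := id h0
      have hS : ((Zc ∪ T) ∪ Y).Nonempty :=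
        ⟨x0, Finset.mem_union_left _ (Finset.mem_union_left _ hx0)⟩
      have hS2 : (Zc ∪ T).Nonempty := ⟨x0, Finset.mem_union_left _ hx0⟩
      obtain ⟨N, hN⟩ : ∃ N, Zc.card + T.card = N + 1 := by
        have := h0.card_pos
        exact ⟨Zc.card + T.card - 1, by omega⟩
      rw [lin_rec r hS, mins_pivot r h (Zc ∪ T) hsub ⟨x0, hZc hx0, Finset.mem_union_left _ hx0⟩]
      push_cast
      set B : X → ℝ := fun x => if x ∈ Zc then (T.card : ℝ) / Zc.card
        else ((T.card : ℝ) - 1) / ((Zc.card : ℝ) + 1) with hB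
      have hmin : mins r (Zc ∪ T) ⊆ Zc ∪ T := Finset.filter_subset _ _
      have key : ∀ x ∈ mins r (Zc ∪ T), (lin r (((Zc ∪ T) ∪ Y).erase x) : ℝ) ≤
          W * (α * lin r ((Zc ∪ T).erase x) + β * (N.factorial : ℝ) * B x) := by
        intro x hx
        have hxS := hmin hx
        have hxY : x ∉ Y := by
          intro hxY
          rcases Finset.mem_union.1 (hsub hxS) with h3 | h3
          · exact Finset.disjoint_left.1 h.cy h3 hxY
          · exact Finset.disjoint_left.1 h.gy h3 hxY
        have e1 : ((Zc ∪ T) ∪ Y).erase x = ((Zc ∪ T).erase x) ∪ Y := by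
          rw [Finset.erase_union_distrib, Finset.erase_eq_of_notMem hxY]
        rw [e1]
        by_cases hxZ : x ∈ Zc
        · have hxT : x ∉ T := fun h3 => Finset.disjoint_left.1 hd hxZ h3
          have e2 : (Zc ∪ T).erase x = (Zc.erase x) ∪ T := by
            rw [Finset.erase_union_distrib, Finset.erase_eq_of_notMem hxT]
          have c1 : (Zc.erase x).card + 1 = Zc.card := Finset.card_erase_add_one hxZ
          have h3 := ih ((Zc.erase x).card + T.card) (by omega) (Zc.erase x)
            ((Finset.erase_subset _ _).trans hZc) T hT rfl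
          have c2 : (Zc.erase x).card + T.card = N := by omega
          have c3 : ((Zc.erase x).card : ℝ) + 1 = Zc.card := by exact_mod_cast c1
          rw [c2, c3] at h3
          rw [e2, hB]
          simp only [if_pos hxZ]
          exact h3
        · have hxT : x ∈ T := (Finset.mem_union.1 hxS).resolve_left hxZ
          have e2 : (Zc ∪ T).erase x = Zc ∪ (T.erase x) := by
            rw [Finset.erase_union_distrib, Finset.erase_eq_of_notMem hxZ]
          have c1 : (T.erase x).card + 1 = T.card := Finset.card_erase_add_one hxT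
          have h3 := ih (Zc.card + (T.erase x).card) (by omega) Zc hZc (T.erase x)
            ((Finset.erase_subset _ _).trans hT) rfl
          have c2 : Zc.card + (T.erase x).card = N := by omega
          have c3 : ((T.erase x).card : ℝ) = T.card - 1 := by
            have : ((T.erase x).card : ℝ) + 1 = T.card := by exact_mod_cast c1
            linarith
          rw [c2, c3] at h3
          rw [e2, hB]
          simp only [if_neg hxZ]
          exact h3
      have hBnn : ∀ x ∈ Zc ∪ T, 0 ≤ B x := by
        intro x hx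
        rw [hB]
        by_cases hxZ : x ∈ Zc
        · simp only [if_pos hxZ]
          positivity
        · simp only [if_neg hxZ]
          have hxT : x ∈ T := (Finset.mem_union.1 hx).resolve_left hxZ
          have h3 : (1 : ℝ) ≤ T.card := by
            have : 0 < T.card := Finset.card_pos.2 ⟨x, hxT⟩
            exact_mod_cast this
          apply div_nonneg (by linarith) (by positivity)
      have hsumB : ∑ x ∈ mins r (Zc ∪ T), B x ≤
          ((Zc.card : ℝ) + T.card) * (T.card / ((Zc.card : ℝ) + 1)) := by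
        refine (Finset.sum_le_sum_of_subset_of_nonneg hmin fun x hx _ => hBnn x hx).trans ?_
        exact le_of_eq (p2_sum Zc T hd h0)
      refine (Finset.sum_le_sum key).trans ?_
      rw [← Finset.mul_sum, Finset.sum_add_distrib, ← Finset.mul_sum, ← Finset.mul_sum]
      apply mul_le_mul_of_nonneg_left _ hW
      have e3 : ∑ x ∈ mins r (Zc ∪ T), (lin r ((Zc ∪ T).erase x) : ℝ) = lin r (Zc ∪ T) := by
        rw [lin_rec r hS2]
        push_cast
        rfl
      rw [e3]
      have e4 : ((Zc.card + T.card).factorial : ℝ) =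
          ((Zc.card : ℝ) + T.card) * (N.factorial : ℝ) := by
        have e5 : ((Zc.card : ℝ) + T.card) = (N : ℝ) + 1 := by exact_mod_cast hN
        rw [e5, hN, Nat.factorial_succ]
        push_cast
        ring
      rw [e4]
      have h5 : β * (N.factorial : ℝ) * ∑ x ∈ mins r (Zc ∪ T), B x ≤
          β * (N.factorial : ℝ) * (((Zc.card : ℝ) + T.card) * (T.card / ((Zc.card : ℝ) + 1))) :=
        mul_le_mul_of_nonneg_left hsumB (by positivity)
      have h6 : β * (N.factorial : ℝ) * (((Zc.card : ℝ) + T.card) *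
          (T.card / ((Zc.card : ℝ) + 1))) = β * (((Zc.card : ℝ) + T.card) * (N.factorial : ℝ)) *
          (T.card / ((Zc.card : ℝ) + 1)) := by ring
      linarith

/-- the special case `β = 0`, `α = F` -/
theorem pivot_max {C G Y : Finset X} (h : Piv r C G Y) (W F : ℝ) (hW : 0 ≤ W)
    (hbase : ∀ T ⊆ G, (lin r (T ∪ Y) : ℝ) ≤ W * (T.card.factorial * F)) :
    (lin r ((C ∪ G) ∪ Y) : ℝ) ≤ W * (F * lin r (C ∪ G)) := by
  have h1 := pivot_bound r h W F 0 hW le_rfl (fun T hT => by simpa using hbase T hT) C
    (Finset.Subset.refl _) G (Finset.Subset.refl _)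
  simpa using h1

end Pool.Agent.LRP
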