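import Mathlib
import Pool.Agent.LRP.P1

set_option autoImplicit false

/-!
# [LRP-P4] transport of `UB` to subsets, and the number of relations of `T ∪ Y`
-/

namespace Pool.Agent.LRP

open Finset
open Pool.Agent.MP_f1b527_co
open Pool.Agent.LRE

open scoped Classical in
/-- As `LRE.lin_erase_le` (E1.lean), for an arbitrary subset `S` of size `n'`: use the embedding
`f = (S.orderEmbOfFin hS).toEmbedding : Fin n' ↪ Fin n` with `univ.map f = S`
(`Finset.map_orderEmbOfFin_univ`), `e1_lin`, `e1_cp`, `extSet_ncard`. -/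
theorem lin_le_of_UB {n n' k : ℕ} {V : ℝ} (h : UB n' k V) (r : Fin n → Fin n → Prop)
    (hirr : ∀ x, ¬ r x x) (htr : ∀ a b c, r a b → r b c → r a c) (S : Finset (Fin n))
    (hS : S.card = n') (hk : k ≤ cp r S) : (lin r S : ℝ) ≤ V := by
  have hmap : (univ : Finset (Fin n')).map (S.orderEmbOfFin hS).toEmbedding = S :=
    Finset.map_orderEmbOfFin_univ S hS
  rw [← hmap, e1_lin]
  rw [← hmap, e1_cp] at hk
  have h1 := h (fun a b => r ((S.orderEmbOfFin hS).toEmbedding a)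
    ((S.orderEmbOfFin hS).toEmbedding b)) (fun a => hirr _) (fun a b c => htr _ _ _) hk
  rw [extSet_ncard (fun a b => r ((S.orderEmbOfFin hS).toEmbedding a)
    ((S.orderEmbOfFin hS).toEmbedding b)) (fun a => hirr _)] at h1
  exact h1

section
variable {X : Type*} [DecidableEq X] (r : X → X → Prop) [DecidableRel r]

theorem p4_union {A B : Finset X} (hd : Disjoint A B) :
    cp r (A ∪ B) = cp r A + cp r B + (∑ x ∈ A, ∑ y ∈ B, C r x y) + ∑ x ∈ B, ∑ y ∈ A, C r x y := by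
  unfold cp
  rw [Finset.sum_union hd]
  have h1 : ∀ x, ∑ y ∈ A ∪ B, C r x y = ∑ y ∈ A, C r x y + ∑ y ∈ B, C r x y := fun x =>
    Finset.sum_union hd
  simp only [h1, Finset.sum_add_distrib]
  ring

theorem p4_down {G' Y : Finset X} (hd : Disjoint G' Y) (hy : ∀ z ∈ Y, ∀ x ∈ G', ¬ r z x) :
    cp r (G' ∪ Y) = cp r G' + cp r Y + ∑ x ∈ G', ∑ y ∈ Y, C r x y := by
  rw [p4_union r hd]
  have h1 : ∑ x ∈ Y, ∑ y ∈ G', C r x y = 0 := by
    apply Finset.sum_eq_zero
    intro x hx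
    apply Finset.sum_eq_zero
    intro y hy'
    unfold C
    exact if_neg (hy x hx y hy')
  rw [h1, add_zero]

theorem p4_le (Y : Finset X) (x : X) : ∑ y ∈ Y, C r x y ≤ Y.card := by
  unfold C
  rw [← Finset.card_filter]
  exact Finset.card_filter_le _ _

theorem p4_lt (Y : Finset X) (x : X) (h : ∃ z ∈ Y, ¬ r x z) : ∑ y ∈ Y, C r x y + 1 ≤ Y.card := by
  unfold C
  rw [← Finset.card_filter]
  obtain ⟨z, hz, hxz⟩ := h
  have h1 : Y.filter (fun y => r x y) ⊆ Y.erase z := by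
    intro y hy
    rw [Finset.mem_filter] at hy
    rw [Finset.mem_erase]
    refine ⟨?_, hy.1⟩
    rintro rfl
    exact hxz hy.2
  have h2 := Finset.card_le_card h1
  have h3 := Finset.card_erase_add_one hz
  omega

/-- `cp r (A ∪ B) = cp r A + cp r B + #(A→B) + #(B→A)` for disjoint `A`, `B`. With `u_x` = number
of points of `Y` above `x`: `cp r (C ∪ G ∪ Y) = cp r (C ∪ G) + cp r Y + ∑_{x ∈ C ∪ G} u_x`
(`ydn`: nothing from `Y` down) and `cp r (T ∪ Y) = cp r T + cp r Y + ∑_{x ∈ T} u_x`. For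
`x ∈ C`, `u_x ≤ |Y|`; for `x ∈ G \ T`, `u_x ≤ |Y| - 1` (`gdef`). Hence
`cp r (C ∪ G ∪ Y) ≤ cp r (C ∪ G) + cp r (T ∪ Y) + |C| |Y| + (|G|-|T|)(|Y|-1)`. -/
theorem cp_base {C G Y : Finset X} (h : Piv r C G Y) (T : Finset X) (hT : T ⊆ G) :
    cp r ((C ∪ G) ∪ Y) + T.card * Y.card + (G.card - T.card) ≤
      cp r (C ∪ G) + cp r (T ∪ Y) + (C.card + G.card) * Y.card := by
  have hd1 : Disjoint (C ∪ G) Y := Finset.disjoint_union_left.2 ⟨h.cy, h.gy⟩
  have hd2 : Disjoint T Y := Finset.disjoint_of_subset_left hT h.gy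
  rw [p4_down r hd1 h.ydn, p4_down r hd2 (fun z hz x hx =>
    h.ydn z hz x (Finset.mem_union_right _ (hT hx)))]
  set u : X → ℕ := fun x => ∑ y ∈ Y, MP_f1b527_co.C r x y with hu
  have e1 : ∑ x ∈ C ∪ G, u x = ∑ x ∈ C, u x + (∑ x ∈ T, u x + ∑ x ∈ G \ T, u x) := by
    rw [Finset.sum_union h.cg, add_comm (∑ x ∈ T, u x), Finset.sum_sdiff hT]
  have e2 : ∑ x ∈ C, u x ≤ C.card * Y.card := by
    rw [← smul_eq_mul, ← Finset.sum_const]
    exact Finset.sum_le_sum fun x _ => p4_le r Y x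
  have e3 : ∑ x ∈ G \ T, u x + (G \ T).card ≤ (G \ T).card * Y.card := by
    have h1 : ∑ x ∈ G \ T, (u x + 1) ≤ (G \ T).card * Y.card := by
      rw [← smul_eq_mul, ← Finset.sum_const]
      exact Finset.sum_le_sum fun x hx => p4_lt r Y x (h.gdef x (Finset.mem_sdiff.1 hx).1)
    rw [Finset.sum_add_distrib, Finset.sum_const, smul_eq_mul, mul_one] at h1
    exact h1
  have e4 : (G \ T).card = G.card - T.card := Finset.card_sdiff_of_subset hT
  have e5 : T.card ≤ G.card := Finset.card_le_card hT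
  obtain ⟨g, hg⟩ := Nat.exists_eq_add_of_le e5
  have e6 : G.card - T.card = g := by omega
  rw [e4, e6] at e3
  rw [e6, hg]
  have e7 : (C.card + (T.card + g)) * Y.card = C.card * Y.card + T.card * Y.card + g * Y.card := by
    ring
  rw [e7]
  have e8 : ∑ x ∈ C ∪ G, ∑ y ∈ Y, MP_f1b527_co.C r x y = ∑ x ∈ C ∪ G, u x := rfl
  have e9 : ∑ x ∈ T, ∑ y ∈ Y, MP_f1b527_co.C r x y = ∑ x ∈ T, u x := rfl
  rw [e8, e9, e1]
  omega

/-- `cp r (C ∪ G) = ∑_{x ∈ C} ..`, every point has at most `|C|+|G|-1` .. so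
`2 cp ≤ l (l-1)` for `l = |C ∪ G|` (each unordered pair is counted at most once:
`r` irreflexive and asymmetric; `M2_cp` in Lin.lean). -/
theorem two_cp_le (hirr : ∀ x, ¬ r x x) (hasym : ∀ x y, r x y → ¬ r y x) (S : Finset X) :
    2 * cp r S + S.card ≤ S.card * S.card := by
  have h1 := M2_cp r (S := S) hirr hasym
  omega

end

end Pool.Agent.LRP
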