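import Mathlib
import Pool.Agent.LRE.Defs

set_option autoImplicit false

/-!
# [LRP-A1] real inequalities for `phi p z = (1 - z/p)^(-p)`

Project LRP (MP_f1b527_co): the part `#minimal points ≤ m - 1` of the exact formula for `e(n,k)`,
`k ≤ n²/64`. `phi` is `Pool.Agent.LRE.phi` (`phi q θ = ((1 - θ / q) ^ q)⁻¹`).
-/

namespace Pool.Agent.LRP

open Finset
open Pool.Agent.LRE

theorem a1_phi_exp (p : ℕ) (z : ℝ) (h : 0 < 1 - z / p) :
    phi p z = Real.exp (-((p : ℝ) * Real.log (1 - z / p))) := by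
  unfold phi
  rw [Real.exp_neg, Real.exp_nat_mul, Real.exp_log h]

theorem a1_G (p z : ℝ) (hp : 1 ≤ p) (h0 : 0 ≤ z) (h1 : z < 1) :
    0 ≤ -(p ^ 2 * Real.log (1 - z / p)) + z + (p + 1) ^ 2 * Real.log (1 - z / (p + 1)) := by
  have hp0 : 0 < p := by linarith
  set f : ℝ → ℝ := fun x => -(p ^ 2 * Real.log (1 - x / p)) + x +
    (p + 1) ^ 2 * Real.log (1 - x / (p + 1)) with hf
  have hpos1 : ∀ x ∈ Set.Icc 0 z, 0 < 1 - x / p := by
    intro x hx
    rw [sub_pos, div_lt_one hp0]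
    linarith [hx.2]
  have hpos2 : ∀ x ∈ Set.Icc 0 z, 0 < 1 - x / (p + 1) := by
    intro x hx
    rw [sub_pos, div_lt_one (by linarith)]
    linarith [hx.2]
  have hder : ∀ x ∈ Set.Icc 0 z, HasDerivAt f
      (-(p ^ 2 * (-(1 / p) / (1 - x / p))) + 1 +
        (p + 1) ^ 2 * (-(1 / (p + 1)) / (1 - x / (p + 1)))) x := by
    intro x hx
    have d1 : HasDerivAt (fun x : ℝ => 1 - x / p) (-(1 / p)) x :=
      ((hasDerivAt_id x).div_const p).const_sub 1
    have d2 : HasDerivAt (fun x : ℝ => 1 - x / (p + 1)) (-(1 / (p + 1))) x :=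
      ((hasDerivAt_id x).div_const (p + 1)).const_sub 1
    have l1 := (d1.log (hpos1 x hx).ne').const_mul (p ^ 2)
    have l2 := (d2.log (hpos2 x hx).ne').const_mul ((p + 1) ^ 2)
    exact (l1.neg.add (hasDerivAt_id x)).add l2
  have hmono : MonotoneOn f (Set.Icc 0 z) := by
    apply monotoneOn_of_deriv_nonneg (convex_Icc 0 z)
    · intro x hx
      exact (hder x hx).continuousAt.continuousWithinAt
    · intro x hx
      exact (hder x (interior_subset hx)).differentiableAt.differentiableWithinAt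
    · intro x hx
      have hx' := interior_subset hx
      rw [(hder x hx').deriv]
      have h2 : 0 < p - x := by linarith [hx'.2]
      have h3 : 0 < p + 1 - x := by linarith
      have e : -(p ^ 2 * (-(1 / p) / (1 - x / p))) + 1 +
          (p + 1) ^ 2 * (-(1 / (p + 1)) / (1 - x / (p + 1))) =
          x ^ 2 / ((p - x) * (p + 1 - x)) := by
        have e1 : 1 - x / p = (p - x) / p := by field_simp
        have e2 : 1 - x / (p + 1) = (p + 1 - x) / (p + 1) := by field_simp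
        rw [e1, e2]
        field_simp
        ring
      rw [e]
      positivity
  have h2 := hmono (Set.left_mem_Icc.2 h0) (Set.right_mem_Icc.2 h0) h0
  have h3 : f 0 = 0 := by
    simp [hf]
  rw [h3] at h2
  exact h2

/-- `(p+1) φ_{p+1}(z) ≤ p φ_p(z) + e^z` for `p ≥ 1`, `0 ≤ z < 1`.
Proof. Put `X = phi p z > 0`, `Y = exp z`. By weighted AM-GM
(`Real.inner_le_nnorm_mul_nnorm` is not needed; use `Real.geom_mean_le_arith_mean2_weighted` or
convexity of `exp`): `(p X + Y)/(p+1) ≥ exp ((p log X + z)/(p+1))`. Hence it is enough that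
`log (phi (p+1) z) ≤ (p log (phi p z) + z)/(p+1)`, i.e. (as `log (phi q z) = - q log (1 - z/q)`)
`G(z) := - p² log (1 - z/p) + z + (p+1)² log (1 - z/(p+1)) ≥ 0`. `G 0 = 0` and
`G'(z) = p²/(p - z) + 1 - (p+1)²/(p+1-z) = z²/((p-z)(p+1-z)) ≥ 0` on `[0,1)`
(`monotoneOn_of_deriv_nonneg` on `Set.Ico 0 1`). -/
theorem phi_succ (p : ℕ) (hp : 1 ≤ p) (z : ℝ) (h0 : 0 ≤ z) (h1 : z < 1) :
    ((p : ℝ) + 1) * phi (p + 1) z ≤ p * phi p z + Real.exp z := by
  have hpR : (1 : ℝ) ≤ p := by exact_mod_cast hp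
  have hp0 : (0 : ℝ) < p := by linarith
  have e1 : phi p z = Real.exp (-((p : ℝ) * Real.log (1 - z / p))) :=
    a1_phi_exp p z (by rw [sub_pos, div_lt_one hp0]; linarith)
  have e2 : phi (p + 1) z =
      Real.exp (-(((p : ℝ) + 1) * Real.log (1 - z / ((p : ℝ) + 1)))) := by
    have h2 := a1_phi_exp (p + 1) z (by
      push_cast
      rw [sub_pos, div_lt_one (by linarith)]
      linarith)
    push_cast at h2
    exact h2
  have hG := a1_G (p : ℝ) z hpR h0 h1
  set L1 := Real.log (1 - z / p)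
  set L2 := Real.log (1 - z / ((p : ℝ) + 1))
  rw [e1, e2]
  set c : ℝ := -(((p : ℝ) + 1) * L2) with hc
  have h3 : Real.exp c * (-((p : ℝ) * L1) - c + 1) ≤ Real.exp (-((p : ℝ) * L1)) := by
    have h4 := Real.add_one_le_exp (-((p : ℝ) * L1) - c)
    have h5 := mul_le_mul_of_nonneg_left h4 (Real.exp_pos c).le
    rw [← Real.exp_add] at h5
    have e : c + (-((p : ℝ) * L1) - c) = -((p : ℝ) * L1) := by ring
    rw [e] at h5
    exact h5
  have h6 : Real.exp c * (z - c + 1) ≤ Real.exp z := by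
    have h4 := Real.add_one_le_exp (z - c)
    have h5 := mul_le_mul_of_nonneg_left h4 (Real.exp_pos c).le
    rw [← Real.exp_add] at h5
    have e : c + (z - c) = z := by ring
    rw [e] at h5
    exact h5
  have h7 : 0 ≤ Real.exp c * (-((p : ℝ) ^ 2 * L1) + z + ((p : ℝ) + 1) ^ 2 * L2) :=
    mul_nonneg (Real.exp_pos c).le hG
  have h8 := mul_le_mul_of_nonneg_left h3 hp0.le
  have h9 : (p : ℝ) * (Real.exp c * (-((p : ℝ) * L1) - c + 1)) + Real.exp c * (z - c + 1) =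
      ((p : ℝ) + 1) * Real.exp c +
        Real.exp c * (-((p : ℝ) ^ 2 * L1) + z + ((p : ℝ) + 1) ^ 2 * L2) := by
    rw [hc]
    ring
  linarith

theorem phi_one (z : ℝ) : phi 1 z = (1 - z)⁻¹ := by
  simp [phi]

/-- Induction on `s` with `phi_succ`. -/
theorem phi_K (s : ℕ) (z : ℝ) (h0 : 0 ≤ z) (h1 : z < 1) :
    ((s : ℝ) + 1) * phi (s + 1) z ≤ (1 - z)⁻¹ + s * Real.exp z := by
  induction s with
  | zero => simp [phi_one]
  | succ s ih =>
    have h := phi_succ (s + 1) (by omega) z h0 h1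
    push_cast at h ⊢
    linarith

/-- Induction on `s` with `phi_succ`. -/
theorem phi_K2 (s : ℕ) (z : ℝ) (h0 : 0 ≤ z) (h1 : z < 1) :
    ((s : ℝ) + 2) * phi (s + 2) z ≤ 2 * phi 2 z + s * Real.exp z := by
  induction s with
  | zero => simp
  | succ s ih =>
    have h := phi_succ (s + 2) (by omega) z h0 h1
    push_cast at h ⊢
    have e : s + 1 + 2 = s + 2 + 1 := by ring
    rw [e]
    linarith

theorem phi_two_le (z : ℝ) (h0 : 0 ≤ z) (h1 : z < 1) :
    2 * phi 2 z ≤ (1 - z)⁻¹ + Real.exp z := by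
  have h := phi_succ 1 le_rfl z h0 h1
  rw [phi_one] at h
  norm_num at h
  linarith

/-- `2 φ_2(z) ≤ 3 e^z` on `[0,1]`, i.e. `2 ≤ 3 e^z (1 - z/2)²`. The function
`z ↦ e^z (1 - z/2)²` is antitone on `[0,1]` (derivative `e^z (1-z/2)(1-z/2-1) ≤ 0`), and its value
at `1` is `e/4 > 2/3` (`Real.exp_one_gt_d9`). Alternative without derivatives:
`e^z = e · e^{z-1} ≥ 2.718 (1 + (z-1) + (z-1)²/2 + (z-1)^3/6)` or simply `e^z ≥ 1 + z + z²/2 + z³/6`
(`Real.sum_le_exp_of_nonneg`) and a polynomial inequality on `[0,1]`. -/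
theorem phi_two_exp (z : ℝ) (h0 : 0 ≤ z) (h1 : z ≤ 1) :
    2 * phi 2 z ≤ 3 * Real.exp z := by
  have h2 : 1 + z + z ^ 2 / 2 + z ^ 3 / 6 ≤ Real.exp z := by
    have h3 := Real.sum_le_exp_of_nonneg h0 4
    simp only [Finset.sum_range_succ, Finset.sum_range_zero, Nat.factorial] at h3
    norm_num at h3
    linarith
  unfold phi
  have h4 : (0 : ℝ) < (1 - z / ((2 : ℕ) : ℝ)) ^ 2 := by
    have : (0 : ℝ) < 1 - z / ((2 : ℕ) : ℝ) := by
      push_cast
      linarith
    positivity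
  rw [mul_inv_le_iff₀ h4]
  push_cast at h4 ⊢
  have h5 : 3 * (1 + z + z ^ 2 / 2 + z ^ 3 / 6) * (1 - z / 2) ^ 2 ≤
      3 * Real.exp z * (1 - z / 2) ^ 2 := by
    apply mul_le_mul_of_nonneg_right _ h4.le
    linarith
  have h6 : 3 * (1 + z + z ^ 2 / 2 + z ^ 3 / 6) * (1 - z / 2) ^ 2 =
      2 + (1 - z) * (1 + z + z ^ 2 / 4 - z ^ 4 / 8) := by ring
  have h7 : 0 ≤ (1 - z) * (1 + z + z ^ 2 / 4 - z ^ 4 / 8) := by
    apply mul_nonneg (by linarith)
    have h8 : z ^ 4 ≤ 1 := pow_le_one₀ h0 h1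
    nlinarith
  linarith

/-- `phi m θ ≥ e^θ` for every real `θ < m` (also negative): `1 - θ/m ≤ exp (-θ/m)`
(`Real.add_one_le_exp`), both sides positive, `m`-th power, inverse. -/
theorem exp_le_phi (m : ℕ) (hm : 1 ≤ m) (θ : ℝ) (h : θ < m) : Real.exp θ ≤ phi m θ := by
  have hm0 : (0 : ℝ) < m := by exact_mod_cast hm
  have h1 : 0 < 1 - θ / m := by
    rw [sub_pos, div_lt_one hm0]
    exact h
  have h2 : 1 - θ / m ≤ Real.exp (-(θ / m)) := by
    have := Real.add_one_le_exp (-(θ / m))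
    linarith
  have h3 : (1 - θ / m) ^ m ≤ Real.exp (-θ) := by
    have h4 := pow_le_pow_left₀ h1.le h2 m
    rw [← Real.exp_nat_mul] at h4
    have e : (m : ℝ) * -(θ / m) = -θ := by
      field_simp
    rw [e] at h4
    exact h4
  unfold phi
  rw [← inv_inv (Real.exp θ), ← Real.exp_neg]
  exact inv_anti₀ (pow_pos h1 m) h3

end Pool.Agent.LRP
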