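import Mathlib
import Pool.Agent.LRE.W5
import Pool.Agent.LRE.W3
import Pool.Agent.LRE.E3

set_option autoImplicit false

/-!
# [LRP-A2] `gg q M J ≤ phi q (J/(M+1))`
-/

namespace Pool.Agent.LRP

open Finset
open Pool.Agent.LRE

/-- `∏_{i=1}^{q} (1 - x/(B+i)) ≤ 1 - x q/(B+q)` for `0 ≤ x ≤ 1`, `B ≥ 0`, `B + 1 > 0`.
Induction on `q`: `(1 - xq/(B+q)) (1 - x/(B+q+1)) ≤ 1 - x(q+1)/(B+q+1)`, the difference is
`x q (1-x)/((B+q)(B+q+1)) ≥ 0` (for `q = 0` trivial). -/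
theorem prod_chord (q : ℕ) (x B : ℝ) (hx0 : 0 ≤ x) (hx1 : x ≤ 1) (hB : 0 < B) :
    ∏ i ∈ range q, (1 - x / (B + ((i : ℝ) + 1))) ≤ 1 - x * q / (B + q) := by
  induction q with
  | zero => simp
  | succ q ih =>
    rw [Finset.prod_range_succ]
    have hq0 : (0 : ℝ) ≤ q := Nat.cast_nonneg q
    have h1 : 0 ≤ 1 - x / (B + ((q : ℝ) + 1)) := by
      rw [sub_nonneg, div_le_one (by positivity)]
      linarith
    refine (mul_le_mul_of_nonneg_right ih h1).trans ?_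
    push_cast
    have h2 : B + (q : ℝ) ≠ 0 := by positivity
    have h3 : B + ((q : ℝ) + 1) ≠ 0 := by positivity
    have h4 : 1 - x * ((q : ℝ) + 1) / (B + ((q : ℝ) + 1)) -
        (1 - x * q / (B + q)) * (1 - x / (B + ((q : ℝ) + 1))) =
        x * q * (1 - x) / ((B + q) * (B + ((q : ℝ) + 1))) := by
      field_simp
      ring
    have h5 : 0 ≤ x * q * (1 - x) / ((B + q) * (B + ((q : ℝ) + 1))) := by
      apply div_nonneg _ (by positivity)
      apply mul_nonneg (by positivity)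
      linarith
    linarith

/-- `gg q M J ≤ ((1 - (J/(M+1))/q)^q)⁻¹`.
Proof. `J = q u + ρ`, `0 ≤ ρ < q`, `u = J / q`, `ρ = J % q`.
If `q = 1` then `ρ = 0` and the product telescopes: both sides are `(M+1)/(M+1-J)`
(`LRE.e3_gg_one` is the left side, in `Pool.Agent.LRE.E3`; it may be copied).
If `q ≥ 2` and `M ≥ 1` then `u < M` (`w5_div_lt`); put `B = M - u > 0`.
(1) `∏_{i<u} (M+q-i)/(M-i) = ∏_{i=1}^{q} (M+i)/(B+i)` (`LRE.prod_shift` in `W3` or `w5_..`; both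
are `(M+q)! (M-u)! / ((M+q-u)! M!)`; or induction on `u`).
(2) `1 + ρ/((q-ρ+1) B) ≤ (∏_{i=1}^{q} (1 - x/(B+i)))⁻¹`, `x = ρ/q`: by `prod_chord` the product is
`≤ 1 - ρ/(B+q)`, and `(1 + ρ/((q-ρ+1)B)) (1 - ρ/(B+q)) ≤ 1` because
`(q-ρ+1) B + ρ ≥ B + q`, indeed `(q-ρ+1)B + ρ - B - q = (q-ρ)(B-1) ≥ 0`.
(3) `(M+i)/(B+i) · (1 - x/(B+i))⁻¹ = (M+i)/(B+i-x) = (M+i)/(M+i-J/q) ≤ (M+1)/(M+1-J/q)`
(real quotient `J/q = u + x`) for `i ≥ 1`, and `((M+1)/(M+1-J/q))^q = phi q (J/(M+1))`.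
`M = 0`: then `J = 0` and both sides are `1`. -/
theorem gg_le_phi1 (q M J : ℕ) (hq : 1 ≤ q) (hJ : J ≤ M) :
    gg q M J ≤ phi q ((J : ℝ) / ((M : ℝ) + 1)) := by
  have hM1 : (0 : ℝ) < (M : ℝ) + 1 := by positivity
  have hJR : (J : ℝ) ≤ M := by exact_mod_cast hJ
  have hJ0 : (0 : ℝ) ≤ J := Nat.cast_nonneg J
  rcases Nat.eq_or_lt_of_le hq with hq1 | hq1
  · subst hq1
    rw [e3_gg_one M J hJ]
    unfold phi
    rw [pow_one, Nat.cast_one, div_one]
    have e : 1 - (J : ℝ) / ((M : ℝ) + 1) = ((M : ℝ) + 1 - J) / ((M : ℝ) + 1) := by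
      field_simp
    rw [e, inv_div]
  rcases Nat.eq_zero_or_pos M with hM0 | hM0
  · have hJ1 : J = 0 := by omega
    subst hJ1
    unfold gg phi
    simp
  have hu := w5_div_lt q M J hq1 hM0 hJ
  have hρ : J % q < q := Nat.mod_lt _ (by omega)
  have hJeq : q * (J / q) + J % q = J := Nat.div_add_mod J q
  unfold gg
  generalize J / q = u at *
  generalize J % q = ρ at *
  rw [← prod_shift q M u hu]
  have hqR : (2 : ℝ) ≤ q := by exact_mod_cast hq1
  have hq0 : (0 : ℝ) < q := by linarith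
  have hρR : (ρ : ℝ) + 1 ≤ q := by exact_mod_cast hρ
  have hρ0 : (0 : ℝ) ≤ ρ := Nat.cast_nonneg ρ
  have hu1 : (u : ℝ) + 1 ≤ M := by exact_mod_cast hu
  have hJr : (q : ℝ) * u + ρ = J := by exact_mod_cast hJeq
  set B : ℝ := (M : ℝ) - u with hB
  have hB1 : 1 ≤ B := by linarith
  set x : ℝ := (ρ : ℝ) / q with hx
  have hx0 : 0 ≤ x := div_nonneg hρ0 hq0.le
  have hx1 : x ≤ 1 := by
    rw [hx, div_le_one hq0]
    linarith
  have hxq : x * q = ρ := by
    rw [hx]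
    field_simp
  have hch := prod_chord q x B hx0 hx1 (by linarith)
  rw [hxq] at hch
  have hfac : ∀ i : ℕ, 0 < 1 - x / (B + ((i : ℝ) + 1)) := by
    intro i
    have hi : (0 : ℝ) ≤ i := Nat.cast_nonneg i
    rw [sub_pos, div_lt_one (by linarith)]
    linarith
  have hprodpos : 0 < ∏ i ∈ range q, (1 - x / (B + ((i : ℝ) + 1))) :=
    Finset.prod_pos fun i _ => hfac i
  have hden : 0 < ((q : ℝ) - ρ + 1) * B := by
    apply mul_pos (by linarith) (by linarith)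
  have h2 : 1 + (ρ : ℝ) / (((q : ℝ) - ρ + 1) * B) ≤
      (∏ i ∈ range q, (1 - x / (B + ((i : ℝ) + 1))))⁻¹ := by
    rw [le_inv_comm₀ (by positivity) hprodpos]
    refine hch.trans ?_
    rw [← one_div, le_div_iff₀ (by positivity)]
    have h3 : (ρ : ℝ) / (((q : ℝ) - ρ + 1) * B) * (B + q - ρ) ≤ ρ := by
      rw [div_mul_eq_mul_div, div_le_iff₀ hden]
      apply mul_le_mul_of_nonneg_left _ hρ0
      nlinarith
    have h4 : (1 - (ρ : ℝ) / (B + q)) * (1 + (ρ : ℝ) / (((q : ℝ) - ρ + 1) * B)) =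
        1 - (ρ - (ρ : ℝ) / (((q : ℝ) - ρ + 1) * B) * (B + q - ρ)) / (B + q) := by
      have h5 : B + (q : ℝ) ≠ 0 := by linarith
      have h6 := hden.ne'
      field_simp
      ring
    rw [h4]
    have h7 : 0 ≤ (ρ - (ρ : ℝ) / (((q : ℝ) - ρ + 1) * B) * (B + q - ρ)) / (B + q) :=
      div_nonneg (by linarith) (by linarith)
    linarith
  have h8 : 0 ≤ ∏ i ∈ range q, (((M : ℝ) + i + 1) / (B + i + 1)) :=
    Finset.prod_nonneg fun i _ => by
      have hi : (0 : ℝ) ≤ i := Nat.cast_nonneg i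
      apply div_nonneg <;> linarith
  refine (mul_le_mul_of_nonneg_left h2 h8).trans ?_
  unfold phi
  rw [← Finset.prod_inv_distrib, ← Finset.prod_mul_distrib, ← inv_pow, ← Finset.card_range q,
    ← Finset.prod_const, Finset.card_range]
  apply Finset.prod_le_prod
  · intro i _
    have hi : (0 : ℝ) ≤ i := Nat.cast_nonneg i
    apply mul_nonneg
    · apply div_nonneg <;> linarith
    · exact (inv_pos.2 (hfac i)).le
  · intro i _
    have hi : (0 : ℝ) ≤ i := Nat.cast_nonneg i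
    have hy : (J : ℝ) / ((M : ℝ) + 1) / q = ((u : ℝ) + x) / ((M : ℝ) + 1) := by
      rw [← hJr, hx]
      field_simp
    have h9 : (0 : ℝ) < (M : ℝ) + 1 - (u + x) := by linarith
    have h10 : (0 : ℝ) < B + i + 1 - x := by linarith
    have e1 : 1 - x / (B + ((i : ℝ) + 1)) = (B + i + 1 - x) / (B + i + 1) := by
      have : B + (i : ℝ) + 1 ≠ 0 := by linarith
      have : B + ((i : ℝ) + 1) ≠ 0 := by linarith
      field_simp
      ring
    have e2 : 1 - ((u : ℝ) + x) / ((M : ℝ) + 1) = ((M : ℝ) + 1 - (u + x)) / ((M : ℝ) + 1) := by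
      field_simp
    rw [hy, e1, e2, inv_div, inv_div]
    have h11 : B + (i : ℝ) + 1 ≠ 0 := by linarith
    have e3 : ((M : ℝ) + i + 1) / (B + i + 1) * ((B + i + 1) / (B + i + 1 - x)) =
        ((M : ℝ) + i + 1) / (B + i + 1 - x) := by
      field_simp
    rw [e3, div_le_div_iff₀ h10 h9, hB]
    have h12 : 0 ≤ ((u : ℝ) + x) * i := by positivity
    nlinarith

end Pool.Agent.LRP
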