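import Mathlib
import Pool.Agent.LRP.A1
import Pool.Agent.LRP.A2
import Pool.Agent.LRE.E3

set_option autoImplicit false

/-!
# [LRP-A3] upper bounds for the inner values `VV (s+1) M D` and lower bounds for the target
-/

namespace Pool.Agent.LRP

open Finset
open Pool.Agent.LRE

/-- `a = (M+1)/(D+1)` -/
noncomputable def aa (M D : ℕ) : ℝ := ((M : ℝ) + 1) / ((D : ℝ) + 1)

/-- `z = (M-D)/(M+1) = 1 - 1/a` -/
noncomputable def zz (M D : ℕ) : ℝ := ((M : ℝ) - D) / ((M : ℝ) + 1)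

theorem zz_nonneg {M D : ℕ} (h : D ≤ M) : 0 ≤ zz M D := by
  unfold zz
  have : (D : ℝ) ≤ M := by exact_mod_cast h
  apply div_nonneg <;> linarith [(Nat.cast_nonneg M : (0 : ℝ) ≤ M)]

theorem zz_lt_one (M D : ℕ) : zz M D < 1 := by
  unfold zz
  have h1 : (0 : ℝ) ≤ D := Nat.cast_nonneg D
  have h2 : (0 : ℝ) ≤ M := Nat.cast_nonneg M
  rw [div_lt_one (by linarith)]
  linarith

theorem one_sub_zz (M D : ℕ) : (1 - zz M D)⁻¹ = aa M D := by
  unfold zz aa
  have h2 : (0 : ℝ) ≤ M := Nat.cast_nonneg M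
  have h1 : (0 : ℝ) ≤ D := Nat.cast_nonneg D
  have h3 : ((M : ℝ) + 1) ≠ 0 := by positivity
  have h4 : ((D : ℝ) + 1) ≠ 0 := by positivity
  have e : 1 - ((M : ℝ) - D) / ((M : ℝ) + 1) = ((D : ℝ) + 1) / ((M : ℝ) + 1) := by
    field_simp
    ring
  rw [e, inv_div]

/-- `1 ≤ a` -/
theorem one_le_aa {M D : ℕ} (h : D ≤ M) : 1 ≤ aa M D := by
  unfold aa
  have h1 : (D : ℝ) ≤ M := by exact_mod_cast h
  rw [one_le_div (by positivity)]
  linarith

/-- Upper bound for the inner values (`x = D - s ≥ 1`, `k = s M + D` on `M + s + 1` points).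
Proof. `VV (s+1) M D = max ((s+1)! M! max (gg ..) (ss ..)) (s! (M+1)!/(D-(s+1)+2))`, with
`J = M - D`. Third term: `= s! (M+1)! (1/(D-s+1))`. Second term:
`(s+1)! M! ss (s+1) M J = s! (M+1)! (a + s)/(M+1)` (exact, `J = M - D`,
`ss = 1 + J/((s+1)(M-J+1))`, `M - J + 1 = D + 1`, `a - 1 = (M-D)/(D+1)`). First term:
`(s+1)! M! gg = s! (M+1)! (s+1) gg/(M+1)`, `gg ≤ phi (s+1) (zz M D)` (`gg_le_phi1`). -/
theorem VV_le_gen (s M D : ℕ) (hD : s + 1 ≤ D) (hDM : D ≤ M) :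
    VV (s + 1) M D ≤ (s.factorial : ℝ) * ((M + 1).factorial : ℝ) *
      (max (((M : ℝ) + 1) / ((D : ℝ) - s + 1))
        (max (aa M D + s) (((s : ℝ) + 1) * phi (s + 1) (zz M D))) / ((M : ℝ) + 1)) := by
  have hM1 : (0 : ℝ) < (M : ℝ) + 1 := by positivity
  have hDR : (s : ℝ) + 1 ≤ D := by exact_mod_cast hD
  have hfac : ((s + 1).factorial : ℝ) * (M.factorial : ℝ) =
      (s.factorial : ℝ) * ((M + 1).factorial : ℝ) * (((s : ℝ) + 1) / ((M : ℝ) + 1)) := by
    rw [Nat.factorial_succ s, Nat.factorial_succ M]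
    push_cast
    field_simp
  have hpos : (0 : ℝ) ≤ (s.factorial : ℝ) * ((M + 1).factorial : ℝ) := by positivity
  unfold VV
  apply max_le
  · rw [hfac, mul_assoc]
    apply mul_le_mul_of_nonneg_left _ hpos
    rw [div_mul_eq_mul_div]
    apply div_le_div_of_nonneg_right _ hM1.le
    refine le_trans ?_ (le_max_right _ _)
    rw [mul_max_of_nonneg _ _ (by positivity : (0 : ℝ) ≤ (s : ℝ) + 1)]
    apply max_le
    · refine le_trans ?_ (le_max_right _ _)
      apply mul_le_mul_of_nonneg_left _ (by positivity)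
      have h1 := gg_le_phi1 (s + 1) M (M - D) (by omega) (by omega)
      have h2 : ((M - D : ℕ) : ℝ) / ((M : ℝ) + 1) = zz M D := by
        unfold zz
        rw [Nat.cast_sub hDM]
      rw [h2] at h1
      exact h1
    · refine le_trans ?_ (le_max_left _ _)
      have h1 := e3_ss (s + 1) M D (by omega) hDM
      push_cast at h1
      rw [h1]
      unfold aa
      linarith
  · have h1 : (s + 1 - 1).factorial = s.factorial := by rw [Nat.add_sub_cancel]
    rw [h1, mul_div_assoc]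
    have h2 : ((s.factorial : ℝ) * (((M + 1).factorial : ℝ) / ((D : ℝ) - ((s + 1 : ℕ) : ℝ) + 2))) =
        (s.factorial : ℝ) * ((M + 1).factorial : ℝ) *
          ((((M : ℝ) + 1) / ((D : ℝ) - s + 1)) / ((M : ℝ) + 1)) := by
      have h3 : (D : ℝ) - s + 1 ≠ 0 := by linarith
      have h4 : (D : ℝ) - ((s : ℝ) + 1) + 2 ≠ 0 := by linarith
      push_cast
      field_simp
      ring
    rw [h2]
    apply mul_le_mul_of_nonneg_left _ hpos
    exact div_le_div_of_nonneg_right (le_max_left _ _) hM1.le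

/-- from `VV_le_gen` and `phi_K`, `one_sub_zz`, `1 ≤ exp z` -/
theorem VV_le (s M D : ℕ) (hD : s + 1 ≤ D) (hDM : D ≤ M) :
    VV (s + 1) M D ≤ (s.factorial : ℝ) * ((M + 1).factorial : ℝ) *
      (max (((M : ℝ) + 1) / ((D : ℝ) - s + 1)) (aa M D + s * Real.exp (zz M D)) / ((M : ℝ) + 1)) := by
  refine (VV_le_gen s M D hD hDM).trans ?_
  have hz := zz_nonneg hDM
  have h1 := phi_K s (zz M D) hz (zz_lt_one M D)
  rw [one_sub_zz] at h1
  have h2 : (1 : ℝ) ≤ Real.exp (zz M D) := Real.one_le_exp hz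
  have h3 : (s : ℝ) ≤ s * Real.exp (zz M D) := by
    have : (0 : ℝ) ≤ s := Nat.cast_nonneg s
    nlinarith
  have h4 : (0 : ℝ) < (M : ℝ) + 1 := by positivity
  apply mul_le_mul_of_nonneg_left _ (by positivity)
  apply div_le_div_of_nonneg_right _ h4.le
  apply max_le_max le_rfl
  exact max_le (by linarith) h1

/-- the target, star -/
theorem VV_ge_star (l M j : ℕ) (hl : 1 ≤ l) (hj : l + 1 ≤ j) :
    (l.factorial : ℝ) * ((M + 1).factorial : ℝ) * (1 / ((j : ℝ) - l + 1)) ≤ VV (l + 1) M j := by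
  unfold VV
  refine le_trans (le_of_eq ?_) (le_max_right _ _)
  rw [Nat.add_sub_cancel]
  push_cast
  rw [mul_one_div]
  congr 1
  ring

/-- the target, two step shape: `(l+1)! M! ss (l+1) M (M-j) = l! (M+1)! (1/(j+1) + l/(M+1))` -/
theorem VV_ge_ss (l M j : ℕ) (hj : l + 1 ≤ j) (hjM : j ≤ M) :
    (l.factorial : ℝ) * ((M + 1).factorial : ℝ) * (1 / ((j : ℝ) + 1) + l / ((M : ℝ) + 1))
      ≤ VV (l + 1) M j := by
  have h1 := e3_ss (l + 1) M j (by omega) hjM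
  push_cast at h1
  have h2 : (l.factorial : ℝ) * ((M + 1).factorial : ℝ) *
      (1 / ((j : ℝ) + 1) + l / ((M : ℝ) + 1)) =
      ((l + 1).factorial : ℝ) * (M.factorial : ℝ) * ss (l + 1) M (M - j) := by
    rw [Nat.factorial_succ l, Nat.factorial_succ M]
    push_cast
    have h3 : ((l : ℝ) + 1) * (l.factorial : ℝ) * (M.factorial : ℝ) * ss (l + 1) M (M - j) =
        (l.factorial : ℝ) * (M.factorial : ℝ) * (((l : ℝ) + 1) * ss (l + 1) M (M - j)) := by ring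
    rw [h3, h1]
    have h4 : (j : ℝ) + 1 ≠ 0 := by positivity
    have h5 : (M : ℝ) + 1 ≠ 0 := by positivity
    field_simp
    ring
  rw [h2]
  unfold VV
  refine le_trans ?_ (le_max_left _ _)
  exact mul_le_mul_of_nonneg_left (le_max_right _ _) (by positivity)

/-- the target, near rectangle: `phi_le_gg` (`W5`) and `exp_le_phi`:
`gg m M J ≥ phi m ((J-m)/(M+m)) ≥ exp ((J-m)/(M+m))`, `m = l+1 ≥ 2`, `J = M - j`. -/
theorem VV_ge_exp (l M j : ℕ) (hl : 1 ≤ l) (hj : l + 1 ≤ j) (hjM : j ≤ M) :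
    (l.factorial : ℝ) * ((M + 1).factorial : ℝ) * (((l : ℝ) + 1) / ((M : ℝ) + 1) *
      Real.exp (((M : ℝ) - j - (l + 1)) / ((M : ℝ) + (l + 1)))) ≤ VV (l + 1) M j := by
  have hjR : (j : ℝ) ≤ M := by exact_mod_cast hjM
  have hlR : (1 : ℝ) ≤ l := by exact_mod_cast hl
  have hlj : (l : ℝ) + 1 ≤ j := by exact_mod_cast hj
  have h1 := phi_le_gg (l + 1) M (M - j) (by omega) (by omega) (by omega)
  have h2 : (((M - j : ℕ) : ℝ) - ((l + 1 : ℕ) : ℝ)) / ((M : ℝ) + ((l + 1 : ℕ) : ℝ)) =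
      ((M : ℝ) - j - (l + 1)) / ((M : ℝ) + (l + 1)) := by
    rw [Nat.cast_sub hjM]
    push_cast
    rfl
  rw [h2] at h1
  have h3 := exp_le_phi (l + 1) (by omega) (((M : ℝ) - j - (l + 1)) / ((M : ℝ) + (l + 1))) (by
    push_cast
    rw [div_lt_iff₀ (by linarith)]
    nlinarith)
  have h4 := h3.trans h1
  have h5 : (l.factorial : ℝ) * ((M + 1).factorial : ℝ) * (((l : ℝ) + 1) / ((M : ℝ) + 1) *
      Real.exp (((M : ℝ) - j - (l + 1)) / ((M : ℝ) + (l + 1)))) =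
      ((l + 1).factorial : ℝ) * (M.factorial : ℝ) *
        Real.exp (((M : ℝ) - j - (l + 1)) / ((M : ℝ) + (l + 1))) := by
    rw [Nat.factorial_succ l, Nat.factorial_succ M]
    push_cast
    have h6 : (M : ℝ) + 1 ≠ 0 := by positivity
    field_simp
  rw [h5]
  unfold VV
  refine le_trans ?_ (le_max_left _ _)
  exact mul_le_mul_of_nonneg_left (h4.trans (le_max_left _ _)) (by positivity)

/-- the interpolated lower bound, `d = j - l`, `0 ≤ g ≤ l`:
`1/(d+g+1) + g/N ≤ max (1/(d+1)) (1/(d+l+1) + l/N)`.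
If `1/(d+g+1) + g/N > 1/(d+1)` then `g > 0` and `(d+1)(d+g+1) > N`, hence
`1/(d+l+1) + l/N - 1/(d+g+1) - g/N = (l-g) (1/N - 1/((d+l+1)(d+g+1))) ≥ 0`. -/
theorem VV_ge_h (l M d g : ℕ) (hl : 1 ≤ l) (hd : 1 ≤ d) (hdM : d + l ≤ M) (hg : g ≤ l) :
    (l.factorial : ℝ) * ((M + 1).factorial : ℝ) * (1 / ((d : ℝ) + g + 1) + g / ((M : ℝ) + 1))
      ≤ VV (l + 1) M (d + l) := by
  have h1 := VV_ge_star l M (d + l) hl (by omega)
  have h2 := VV_ge_ss l M (d + l) (by omega) hdM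
  have hgR : (g : ℝ) ≤ l := by exact_mod_cast hg
  have hg0 : (0 : ℝ) ≤ g := Nat.cast_nonneg g
  have hdR : (1 : ℝ) ≤ d := by exact_mod_cast hd
  have hN : (0 : ℝ) < (M : ℝ) + 1 := by positivity
  have hpos : (0 : ℝ) ≤ (l.factorial : ℝ) * ((M + 1).factorial : ℝ) := by positivity
  push_cast at h1 h2
  have e1 : (d : ℝ) + l - l + 1 = (d : ℝ) + 1 := by ring
  rw [e1] at h1
  rcases le_or_gt (1 / ((d : ℝ) + g + 1) + g / ((M : ℝ) + 1)) (1 / ((d : ℝ) + 1)) with h3 | h3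
  · exact (mul_le_mul_of_nonneg_left h3 hpos).trans h1
  · refine le_trans (mul_le_mul_of_nonneg_left ?_ hpos) h2
    set N : ℝ := (M : ℝ) + 1 with hNdef
    have hA : (0 : ℝ) < (d : ℝ) + 1 := by linarith
    have hB : (0 : ℝ) < (d : ℝ) + g + 1 := by linarith
    have hC : (0 : ℝ) < (d : ℝ) + l + 1 := by linarith
    have h4 : 1 / ((d : ℝ) + 1) - 1 / ((d : ℝ) + g + 1) =
        g / (((d : ℝ) + 1) * ((d : ℝ) + g + 1)) := by
      field_simp
      ring
    have h5 : (g : ℝ) / (((d : ℝ) + 1) * ((d : ℝ) + g + 1)) < g / N := by linarith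
    have h6 : N < ((d : ℝ) + 1) * ((d : ℝ) + g + 1) := by
      by_contra hcon
      push Not at hcon
      have h7 := div_le_div_of_nonneg_left hg0 (mul_pos hA hB) hcon
      linarith
    have h8 : ((d : ℝ) + 1) * ((d : ℝ) + g + 1) ≤ ((d : ℝ) + l + 1) * ((d : ℝ) + g + 1) :=
      mul_le_mul_of_nonneg_right (by linarith) hB.le
    have h9 : 1 / (((d : ℝ) + l + 1) * ((d : ℝ) + g + 1)) ≤ 1 / N :=
      one_div_le_one_div_of_le hN (by linarith)
    have h10 : 1 / ((d : ℝ) + l + 1) + l / N - (1 / ((d : ℝ) + g + 1) + g / N) =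
        ((l : ℝ) - g) * (1 / N - 1 / (((d : ℝ) + l + 1) * ((d : ℝ) + g + 1))) := by
      field_simp
      ring
    have h11 : 0 ≤ ((l : ℝ) - g) * (1 / N - 1 / (((d : ℝ) + l + 1) * ((d : ℝ) + g + 1))) :=
      mul_nonneg (by linarith) (by linarith)
    linarith

end Pool.Agent.LRP
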