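import Mathlib
import Pool.Agent.LRP.A3
import Pool.Agent.LRP.P2
import Pool.Agent.LRP.P4
import Pool.Agent.LRE.E4

set_option autoImplicit false

/-!
# LRP: context of the case distinction (no open row in this file)
-/

namespace Pool.Agent.LRP

open Finset
open Pool.Agent.MP_f1b527_co
open Pool.Agent.LRE

open scoped Classical in
/-- the situation of the pivot argument: `m = l + 1`, `N = M + 1`, `k = l N + d` -/
structure Ctx {n : ℕ} (r : Fin n → Fin n → Prop) (l M d : ℕ) (C G Y : Finset (Fin n)) : Prop where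
  hirr : ∀ x, ¬ r x x
  htr : ∀ a b c, r a b → r b c → r a c
  piv : Piv r C G Y
  cov : (C ∪ G) ∪ Y = univ
  hcard : C.card + G.card = l
  hY : Y.card = M + 1
  hd : 1 ≤ d
  hdM : d + l ≤ M
  hM : 3 * (l + 1) ≤ M
  hk : cp r univ = l * (M + 1) + d

/-- the induction hypothesis: smaller levels, same `M` -/
def IH (l M : ℕ) : Prop :=
  ∀ s D : ℕ, 1 ≤ s → s < l → s + 1 ≤ D → D ≤ M → UB (M + (s + 1)) (s * M + D) (VV (s + 1) M D)

/-- the inner value (times `N = M + 1`) -/
noncomputable def FF (M D s : ℕ) : ℝ :=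
  max (((M : ℝ) + 1) / ((D : ℝ) - s + 1))
    (max (aa M D + s) (((s : ℝ) + 1) * phi (s + 1) (zz M D)))

namespace Ctx

variable {n l M d : ℕ} {r : Fin n → Fin n → Prop} {C G Y : Finset (Fin n)}

theorem hc (h : Ctx r l M d C G Y) : 1 ≤ C.card := Finset.card_pos.mpr h.piv.cne

theorem hg (h : Ctx r l M d C G Y) : G.card + 1 ≤ l := by
  have := h.hc
  have := h.hcard
  omega

theorem hl (h : Ctx r l M d C G Y) : 1 ≤ l := by
  have := h.hg
  omega

theorem cardCG (h : Ctx r l M d C G Y) : (C ∪ G).card = l := by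
  rw [Finset.card_union_of_disjoint h.piv.cg]
  exact h.hcard

theorem cardTY (h : Ctx r l M d C G Y) {T : Finset (Fin n)} (hT : T ⊆ G) :
    (T ∪ Y).card = (M + 1) + T.card := by
  have h1 : Disjoint T Y := Finset.disjoint_of_subset_left hT h.piv.gy
  rw [Finset.card_union_of_disjoint h1, h.hY]
  omega

open scoped Classical in
/-- number of relations of `T ∪ Y` -/
theorem cpTY (h : Ctx r l M d C G Y) {T : Finset (Fin n)} (hT : T ⊆ G) :
    T.card * (M + 1) + d + (G.card - T.card) ≤ cp r (C ∪ G) + cp r (T ∪ Y) := by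
  have h1 := cp_base r h.piv T hT
  rw [h.cov, h.hk, h.hY, h.hcard] at h1
  omega

open scoped Classical in
theorem cp_total (h : Ctx r l M d C G Y) : cp r ((C ∪ G) ∪ Y) = l * (M + 1) + d := by
  rw [h.cov, h.hk]

open scoped Classical in
/-- `lin r (C ∪ G) ≤ l!/(c0+1)` -/
theorem lin_early (h : Ctx r l M d C G Y) :
    (lin r (C ∪ G) : ℝ) ≤ (l.factorial : ℝ) / ((cp r (C ∪ G) : ℝ) + 1) := by
  have h1 := lin_le_inv r (C ∪ G)
  rwa [h.cardCG] at h1

end Ctx

end Pool.Agent.LRP
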