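import Mathlib
import Pool.Agent.LRP.Ctx

set_option autoImplicit false

/-!
# [LRP-B1] the base values for `c0 ≤ d`
-/

namespace Pool.Agent.LRP

open Finset
open Pool.Agent.MP_f1b527_co
open Pool.Agent.LRE

open scoped Classical in
/-- `c0 = cp r (C ∪ G) ≤ d`, `D = d - c0 + |G|`, `s = |T|`. By `cpTY`:
`cp r (T ∪ Y) ≥ s (M+1) + (d - c0) + (|G| - s) = s M + D`, and `|T ∪ Y| = M + 1 + s`.
Use `lin_le_of_UB` with
* `s = 0`: `UB_one (M+1) D`, value `(M+1)!/(D+1) = (M+1)! (aa M D/(M+1))`;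
* `s ≥ 1`, `D = s`: `UB_rect s (M+1)` (`s * (M+1) = s M + D`), value `s! (M+1)!`, and
  `FF M D s ≥ (M+1)/(D-s+1) = M+1`;
* `s ≥ 1`, `D ≥ s+1`: the induction hypothesis `hIH s D` (`s ≤ |G| < l`, `D ≤ M`; sizes
  `M + (s+1) = M + 1 + s`) and `VV_le_gen`. -/
theorem base_bound {n l M d : ℕ} {r : Fin n → Fin n → Prop} {C G Y : Finset (Fin n)}
    (h : Ctx r l M d C G Y) (hIH : IH l M) (hc0 : cp r (C ∪ G) ≤ d) (T : Finset (Fin n))
    (hT : T ⊆ G) :
    (lin r (T ∪ Y) : ℝ) ≤ ((M + 1).factorial : ℝ) * (T.card.factorial *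
      (FF M (d - cp r (C ∪ G) + G.card) T.card / ((M : ℝ) + 1))) := by
  have hcp := h.cpTY hT
  have hcard := h.cardTY hT
  have hg := h.hg
  have hdM := h.hdM
  have hTG := Finset.card_le_card hT
  obtain ⟨D, hD⟩ : ∃ D, D = d - cp r (C ∪ G) + G.card := ⟨_, rfl⟩
  rw [← hD]
  have hDM : D ≤ M := by omega
  have hM1 : (0 : ℝ) < (M : ℝ) + 1 := by positivity
  obtain ⟨s, hs⟩ : ∃ s, s = T.card := ⟨_, rfl⟩
  rw [← hs] at hcp hcard hTG ⊢
  have hk : s * M + D ≤ cp r (T ∪ Y) := by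
    rw [Nat.mul_succ] at hcp
    omega
  have hsD : s ≤ D := by omega
  rcases Nat.eq_zero_or_pos s with hs0 | hs0
  · subst hs0
    rw [zero_mul, zero_add] at hk
    have h1 := lin_le_of_UB (UB_one (M + 1) D) r h.hirr h.htr (T ∪ Y) hcard hk
    refine h1.trans ?_
    rw [div_eq_mul_one_div]
    apply mul_le_mul_of_nonneg_left _ (by positivity)
    rw [Nat.factorial_zero, Nat.cast_one, one_mul]
    have h2 : aa M D ≤ FF M D 0 := by
      unfold FF
      refine le_trans ?_ (le_max_right _ _)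
      refine le_trans ?_ (le_max_left _ _)
      simp
    have h3 : (1 : ℝ) / ((D : ℝ) + 1) = aa M D / ((M : ℝ) + 1) := by
      unfold aa
      field_simp
    rw [h3]
    exact div_le_div_of_nonneg_right h2 hM1.le
  rcases Nat.eq_or_lt_of_le hsD with h4 | h4
  · have h5 : s * (M + 1) ≤ cp r (T ∪ Y) := by
      rw [Nat.mul_succ]
      omega
    have h1 := lin_le_of_UB (UB_rect s (M + 1) (by omega)) r h.hirr h.htr (T ∪ Y) hcard h5
    refine h1.trans ?_
    rw [mul_comm ((s.factorial : ℝ)) _]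
    apply mul_le_mul_of_nonneg_left _ (by positivity)
    have h6 : (M : ℝ) + 1 ≤ FF M D s := by
      unfold FF
      refine le_trans ?_ (le_max_left _ _)
      rw [← h4, sub_self, zero_add, div_one]
    have h7 : (1 : ℝ) ≤ FF M D s / ((M : ℝ) + 1) := by
      rw [one_le_div hM1]
      exact h6
    have h8 : (0 : ℝ) ≤ s.factorial := by positivity
    nlinarith
  · have h1 := hIH s D hs0 (by omega) h4 hDM
    have h2 := lin_le_of_UB h1 r h.hirr h.htr (T ∪ Y) (by omega) hk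
    refine h2.trans ((VV_le_gen s M D h4 hDM).trans (le_of_eq ?_))
    unfold FF
    ring

end Pool.Agent.LRP
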