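import Mathlib
import Pool.Agent.LRP.Ctx

set_option autoImplicit false

/-!
# [LRP-B2] chords
-/

namespace Pool.Agent.LRP

open Finset
open Pool.Agent.LRE

theorem b2_first (M D g s : ℕ) (L : ℝ) (hs : s ≤ g) (hg : g ≤ D)
    (h2 : ((M : ℝ) + 1) / ((D : ℝ) - g + 1) - aa M D ≤ L * g) :
    ((M : ℝ) + 1) / ((D : ℝ) - s + 1) ≤ aa M D + L * s := by
  have hgD : (g : ℝ) ≤ D := by exact_mod_cast hg
  have hsg : (s : ℝ) ≤ g := by exact_mod_cast hs
  have hs0 : (0 : ℝ) ≤ s := Nat.cast_nonneg s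
  have hM : (0 : ℝ) < (M : ℝ) + 1 := by positivity
  have hD : (0 : ℝ) < (D : ℝ) + 1 := by positivity
  have hA : (0 : ℝ) < (D : ℝ) - s + 1 := by linarith
  have hB : (0 : ℝ) < (D : ℝ) - g + 1 := by linarith
  rcases Nat.eq_zero_or_pos g with hg0 | hg0
  · have hs1 : s = 0 := by omega
    subst hs1
    unfold aa
    simp
  have hgR : (0 : ℝ) < g := by exact_mod_cast hg0
  have e1 : ((M : ℝ) + 1) / ((D : ℝ) - s + 1) - aa M D =
      ((M : ℝ) + 1) * s / (((D : ℝ) + 1) * ((D : ℝ) - s + 1)) := by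
    unfold aa
    field_simp
    ring
  have e2 : ((M : ℝ) + 1) / ((D : ℝ) - g + 1) - aa M D =
      ((M : ℝ) + 1) * g / (((D : ℝ) + 1) * ((D : ℝ) - g + 1)) := by
    unfold aa
    field_simp
    ring
  rw [e2] at h2
  have h3 : ((M : ℝ) + 1) * s / (((D : ℝ) + 1) * ((D : ℝ) - s + 1)) ≤
      ((M : ℝ) + 1) * s / (((D : ℝ) + 1) * ((D : ℝ) - g + 1)) := by
    apply div_le_div_of_nonneg_left (by positivity) (by positivity)
    apply mul_le_mul_of_nonneg_left _ hD.le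
    linarith
  have h4 : ((M : ℝ) + 1) * s / (((D : ℝ) + 1) * ((D : ℝ) - g + 1)) =
      (s / g) * (((M : ℝ) + 1) * g / (((D : ℝ) + 1) * ((D : ℝ) - g + 1))) := by
    field_simp
  have h5 : (s / g : ℝ) * (((M : ℝ) + 1) * g / (((D : ℝ) + 1) * ((D : ℝ) - g + 1))) ≤
      (s / g : ℝ) * (L * g) := mul_le_mul_of_nonneg_left h2 (by positivity)
  have h6 : (s / g : ℝ) * (L * g) = L * s := by
    field_simp
  linarith

theorem b2_third (M D s : ℕ) :
    ((s : ℝ) + 1) * phi (s + 1) (zz M D) ≤ aa M D + s * Real.exp (zz M D) ∨ M < D := by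
  rcases Nat.lt_or_ge M D with h | h
  · exact Or.inr h
  · left
    have h1 := phi_K s (zz M D) (zz_nonneg h) (zz_lt_one M D)
    rwa [one_sub_zz] at h1

/-- `FF M D s ≤ a + Λ s` for `s ≤ g`, if `Λ ≥ e^z` and `Λ g ≥ N/(D-g+1) - a` (`N = M+1`,
`a = N/(D+1)`, `z = zz M D`).
* `N/(D-s+1) - a = N s/((D+1)(D-s+1)) ≤ (s/g) (N g/((D+1)(D-g+1))) = (s/g)(N/(D-g+1) - a) ≤ Λ s`
  (`s ≤ g`; for `g = 0` also `s = 0` and both sides are `a`);
* `a + s ≤ a + Λ s` since `Λ ≥ e^z ≥ 1`;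
* `(s+1) φ_{s+1}(z) ≤ a + s e^z` (`phi_K`, `one_sub_zz`). -/
theorem FF_chord (M D g s : ℕ) (L : ℝ) (hs : s ≤ g) (hg : g ≤ D) (hDM : D ≤ M)
    (h1 : Real.exp (zz M D) ≤ L)
    (h2 : ((M : ℝ) + 1) / ((D : ℝ) - g + 1) - aa M D ≤ L * g) :
    FF M D s ≤ aa M D + L * s := by
  have hs0 : (0 : ℝ) ≤ s := Nat.cast_nonneg s
  have h3 : (1 : ℝ) ≤ Real.exp (zz M D) := Real.one_le_exp (zz_nonneg hDM)
  unfold FF
  apply max_le (b2_first M D g s L hs hg h2)
  apply max_le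
  · have := mul_le_mul_of_nonneg_right (h3.trans h1) hs0
    linarith
  · rcases b2_third M D s with h4 | h4
    · have := mul_le_mul_of_nonneg_right h1 hs0
      linarith
    · omega

/-- The finer chord: the same if `Λ ≥ 1`, `Λ g ≥ N/(D-g+1) - a` and
`Λ g ≥ 2 φ_2(z) + (g-1) e^z - a`. Third term for `s ≥ 1`: by `phi_K2`
`(s+1) φ_{s+1} ≤ 2 φ_2 + (s-1) e^z = a + κ + s e^z` with `κ = 2 φ_2 - e^z - a ≤ 0` (`phi_two_le`,
`one_sub_zz`), and `κ + s e^z ≤ (s/g) (κ + g e^z) ≤ Λ s`. For `s = 0`: `φ_1(z) = a`. -/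
theorem FF_chord2 (M D g s : ℕ) (L : ℝ) (hs : s ≤ g) (hg : g ≤ D) (hDM : D ≤ M)
    (h1 : 1 ≤ L)
    (h2 : ((M : ℝ) + 1) / ((D : ℝ) - g + 1) - aa M D ≤ L * g)
    (h3 : 2 * phi 2 (zz M D) + ((g : ℝ) - 1) * Real.exp (zz M D) - aa M D ≤ L * g) :
    FF M D s ≤ aa M D + L * s := by
  have hs0 : (0 : ℝ) ≤ s := Nat.cast_nonneg s
  unfold FF
  apply max_le (b2_first M D g s L hs hg h2)
  apply max_le
  · have := mul_le_mul_of_nonneg_right h1 hs0
    linarith
  · rcases s with _ | s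
    · rw [phi_one, one_sub_zz]
      simp
    · have h4 := phi_K2 s (zz M D) (zz_nonneg hDM) (zz_lt_one M D)
      have h5 := phi_two_le (zz M D) (zz_nonneg hDM) (zz_lt_one M D)
      rw [one_sub_zz] at h5
      have hgR : (0 : ℝ) < g := by
        have : 0 < g := by omega
        exact_mod_cast this
      have hsg : ((s : ℝ) + 1) ≤ g := by exact_mod_cast hs
      push_cast
      set E := Real.exp (zz M D)
      set κ : ℝ := 2 * phi 2 (zz M D) - E - aa M D with hκ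
      have hκ0 : κ ≤ 0 := by linarith
      have h6 : κ + g * E ≤ L * g := by
        rw [hκ]
        linarith
      have h7 : (((s : ℝ) + 1) / g) * (κ + g * E) ≤ (((s : ℝ) + 1) / g) * (L * g) :=
        mul_le_mul_of_nonneg_left h6 (by positivity)
      have h8 : (((s : ℝ) + 1) / g) * (L * g) = L * (s + 1) := by
        field_simp
      have h9 : (((s : ℝ) + 1) / g) * (κ + g * E) = (((s : ℝ) + 1) / g) * κ + (s + 1) * E := by
        field_simp
      have h10 : κ ≤ (((s : ℝ) + 1) / g) * κ := by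
        have h11 : ((s : ℝ) + 1) / g ≤ 1 := by
          rw [div_le_one hgR]
          exact hsg
        nlinarith
      have h12 : (s : ℝ) + 1 + 1 = s + 2 := by ring
      have h13 : s + 1 + 1 = s + 2 := rfl
      rw [h12, h13]
      have h14 : 2 * phi 2 (zz M D) + s * E = aa M D + κ + (s + 1) * E := by
        rw [hκ]
        ring
      linarith

/-- crude: `FF M D s ≤ max (N/(D-g+1)) (a + g e^z)` for `s ≤ g` -/
theorem FF_max (M D g s : ℕ) (hs : s ≤ g) (hg : g ≤ D) (hDM : D ≤ M) :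
    FF M D s ≤ max (((M : ℝ) + 1) / ((D : ℝ) - g + 1)) (aa M D + g * Real.exp (zz M D)) := by
  have hgD : (g : ℝ) ≤ D := by exact_mod_cast hg
  have hsg : (s : ℝ) ≤ g := by exact_mod_cast hs
  have hs0 : (0 : ℝ) ≤ s := Nat.cast_nonneg s
  have h3 : (1 : ℝ) ≤ Real.exp (zz M D) := Real.one_le_exp (zz_nonneg hDM)
  have h5 : (s : ℝ) * Real.exp (zz M D) ≤ g * Real.exp (zz M D) :=
    mul_le_mul_of_nonneg_right hsg (by linarith)
  unfold FF
  apply max_le
  · refine le_trans ?_ (le_max_left _ _)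
    apply div_le_div_of_nonneg_left (by positivity) (by linarith)
    linarith
  · refine le_trans ?_ (le_max_right _ _)
    apply max_le
    · have := mul_le_mul_of_nonneg_left h3 hs0
      linarith
    · rcases b2_third M D s with h4 | h4
      · linarith
      · omega

end Pool.Agent.LRP
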