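import Mathlib
import Pool.Agent.LRP.B1
import Pool.Agent.LRP.B2
import Pool.Agent.LRG.H1

set_option autoImplicit false

/-!
# [LRP-CA] case (A): no relation inside the early part
-/

namespace Pool.Agent.LRP

open Finset
open Pool.Agent.MP_f1b527_co
open Pool.Agent.LRE

theorem ca_exp (M D : ℕ) : Real.exp (zz M D) ≤ 27183 / 10000 := by
  have h1 : Real.exp (zz M D) ≤ Real.exp 1 := Real.exp_le_exp.2 (zz_lt_one M D).le
  have h2 := Real.exp_one_lt_d9
  refine h1.trans ?_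
  norm_num at h2 ⊢
  linarith

theorem ca_star (l M d : ℕ) (V : ℝ) (hl : 1 ≤ l) (hd : 1 ≤ d)
    (h : V ≤ 1 / ((d : ℝ) + 1)) :
    (l.factorial : ℝ) * ((M + 1).factorial : ℝ) * V ≤ VV (l + 1) M (d + l) := by
  have h1 := VV_ge_star l M (d + l) hl (by omega)
  have e : ((d + l : ℕ) : ℝ) - l + 1 = (d : ℝ) + 1 := by
    push_cast
    ring
  rw [e] at h1
  exact (mul_le_mul_of_nonneg_left h (by positivity)).trans h1

theorem ca_h (l M d g : ℕ) (V : ℝ) (hl : 1 ≤ l) (hd : 1 ≤ d) (hdM : d + l ≤ M) (hg : g ≤ l)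
    (h : V ≤ 1 / ((d : ℝ) + g + 1) + g / ((M : ℝ) + 1)) :
    (l.factorial : ℝ) * ((M + 1).factorial : ℝ) * V ≤ VV (l + 1) M (d + l) :=
  (mul_le_mul_of_nonneg_left h (by positivity)).trans (VV_ge_h l M d g hl hd hdM hg)

theorem ca_aa (M d g : ℕ) : aa M (d + g) / ((M : ℝ) + 1) = 1 / ((d : ℝ) + g + 1) := by
  unfold aa
  push_cast
  have h1 : (M : ℝ) + 1 ≠ 0 := by positivity
  have h2 : (d : ℝ) + g + 1 ≠ 0 := by positivity
  field_simp

theorem ca_aa_le (M d g : ℕ) : aa M (d + g) ≤ ((M : ℝ) + 1) / ((d : ℝ) + 1) := by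
  unfold aa
  push_cast
  apply div_le_div_of_nonneg_left (by positivity) (by positivity)
  have : (0 : ℝ) ≤ g := Nat.cast_nonneg g
  linarith

/-- Numbers for `c ≥ 2`: for `D = d + g`, `N = M + 1`, `e^z ≤ 3`,
`Λ g = max (g e^z) (N/(d+1) - a)`:
`(a + (Λ g)/(c+1))/N ≤ max (1/(d+1)) ((a + g)/N)`; the first is `VV_ge_star` and the second
`VV_ge_h` (`a/N = 1/(d+g+1)`). -/
theorem num_A2 (l M d g c : ℕ) (t : ℝ) (hd : 1 ≤ d) (hdM : d + l ≤ M) (hc : 2 ≤ c)
    (hcg : c + g = l)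
    (ht : t ≤ max (g * Real.exp (zz M (d + g))) (((M : ℝ) + 1) / ((d : ℝ) + 1) - aa M (d + g))) :
    (l.factorial : ℝ) * ((M + 1).factorial : ℝ) *
      ((aa M (d + g) + t / ((c : ℝ) + 1)) / ((M : ℝ) + 1)) ≤ VV (l + 1) M (d + l) := by
  have hN : (0 : ℝ) < (M : ℝ) + 1 := by positivity
  have hcR : (2 : ℝ) ≤ c := by exact_mod_cast hc
  have hg0 : (0 : ℝ) ≤ g := Nat.cast_nonneg g
  have he := ca_exp M (d + g)
  rcases le_max_iff.1 ht with h1 | h1
  · apply ca_h l M d g _ (by omega) hd hdM (by omega)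
    rw [add_div, ca_aa]
    apply add_le_add le_rfl
    apply div_le_div_of_nonneg_right _ hN.le
    rw [div_le_iff₀ (by linarith)]
    have h2 : (g : ℝ) * Real.exp (zz M (d + g)) ≤ g * 3 :=
      mul_le_mul_of_nonneg_left (by linarith) hg0
    nlinarith
  · apply ca_star l M d _ (by omega) hd
    have h2 := ca_aa_le M d g
    have h3 : t / ((c : ℝ) + 1) ≤ ((M : ℝ) + 1) / ((d : ℝ) + 1) - aa M (d + g) := by
      rw [div_le_iff₀ (by linarith)]
      nlinarith
    have h4 : (1 : ℝ) / ((d : ℝ) + 1) = ((M : ℝ) + 1) / ((d : ℝ) + 1) / ((M : ℝ) + 1) := by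
      field_simp
    rw [h4]
    apply div_le_div_of_nonneg_right _ hN.le
    linarith

/-- Numbers for `c = 1`, `g = l - 1 ≥ 1`, `D = d + g`:
`V = (a + t/2)/N`, `t ≤ max3 (N/(d+1) - a) g (2 φ_2(z) + (g-1) e^z - a)`.
* first: `a + t/2 ≤ (a + N/(d+1))/2 ≤ N/(d+1)` (`a ≤ N/(d+1)`): `VV_ge_star`;
* second: `a + g/2 ≤ a + g`: `VV_ge_h` (`g ≤ l`);
* third: `a + t/2 ≤ (a + 2 φ_2 + (g-1) e^z)/2`. If `a ≥ 2 φ_2 + (g-1) e^z - 2g` this is `≤ a + g`
  (always so for `g ≤ 5`, `h1_a`). If `e^z ≤ 2`: `h1_b`, `VV_ge_ss`. Otherwise `h1_c`,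
  `VV_ge_exp`. -/
theorem num_A1 (l M d g : ℕ) (t : ℝ) (hd : 1 ≤ d) (hdM : d + l ≤ M) (hM : 3 * (l + 1) ≤ M)
    (hg : 1 ≤ g) (hcg : 1 + g = l)
    (ht : t ≤ max (max (((M : ℝ) + 1) / ((d : ℝ) + 1) - aa M (d + g)) g)
      (2 * phi 2 (zz M (d + g)) + ((g : ℝ) - 1) * Real.exp (zz M (d + g)) - aa M (d + g))) :
    (l.factorial : ℝ) * ((M + 1).factorial : ℝ) *
      ((aa M (d + g) + t / 2) / ((M : ℝ) + 1)) ≤ VV (l + 1) M (d + l) := by
  have hN : (0 : ℝ) < (M : ℝ) + 1 := by positivity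
  have hgR : (1 : ℝ) ≤ g := by exact_mod_cast hg
  have hDM : d + g ≤ M := by omega
  have hz0 := zz_nonneg hDM
  have hz1 := zz_lt_one M (d + g)
  have hlR : (l : ℝ) = 1 + g := by exact_mod_cast hcg.symm
  rcases le_max_iff.1 ht with h0 | h1
  · rcases le_max_iff.1 h0 with h1 | h1
    · apply ca_star l M d _ (by omega) hd
      have h2 := ca_aa_le M d g
      have h4 : (1 : ℝ) / ((d : ℝ) + 1) = ((M : ℝ) + 1) / ((d : ℝ) + 1) / ((M : ℝ) + 1) := by
        field_simp
      rw [h4]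
      apply div_le_div_of_nonneg_right _ hN.le
      linarith
    · apply ca_h l M d g _ (by omega) hd hdM (by omega)
      rw [add_div, ca_aa]
      apply add_le_add le_rfl
      apply div_le_div_of_nonneg_right _ hN.le
      linarith
  · rcases le_or_gt (2 * phi 2 (zz M (d + g)) + ((g : ℝ) - 1) * Real.exp (zz M (d + g)) - 2 * g)
      (aa M (d + g)) with h3 | h3
    · apply ca_h l M d g _ (by omega) hd hdM (by omega)
      rw [← ca_aa, ← add_div]
      apply div_le_div_of_nonneg_right _ hN.le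
      linarith
    · have hg6 : 6 ≤ g := by
        by_contra hc
        have h4 := LRG.h1_a M (d + g) g hDM hg (by omega)
        linarith
      rcases le_or_gt (Real.exp (zz M (d + g))) 2 with he2 | he2
      · have h4 := LRG.h1_b M (d + g) hDM (by omega)
        have h5 := VV_ge_ss l M (d + l) (by omega) hdM
        refine le_trans ?_ h5
        apply mul_le_mul_of_nonneg_left _ (by positivity)
        have hD0 : (0 : ℝ) < (d : ℝ) + g + 2 := by positivity
        have e1 : (1 : ℝ) / (((d + l : ℕ) : ℝ) + 1) + (l : ℝ) / ((M : ℝ) + 1) =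
            (((M : ℝ) + 1) / ((d : ℝ) + g + 2) + l) / ((M : ℝ) + 1) := by
          push_cast
          rw [hlR]
          have : (d : ℝ) + (1 + g) + 1 = (d : ℝ) + g + 2 := by ring
          rw [this]
          field_simp
        rw [e1]
        apply div_le_div_of_nonneg_right _ hN.le
        have e2 : ((M : ℝ) + 1) / ((d : ℝ) + g + 2) =
            aa M (d + g) / 2 + aa M (d + g) * (((d + g : ℕ) : ℝ) / (2 * (((d + g : ℕ) : ℝ) + 2))) := by
          unfold aa
          push_cast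
          have : (d : ℝ) + g + 1 ≠ 0 := by positivity
          field_simp
          ring
        have h6 : ((g : ℝ) - 1) * Real.exp (zz M (d + g)) ≤ ((g : ℝ) - 1) * 2 :=
          mul_le_mul_of_nonneg_left he2 (by linarith)
        rw [e2, hlR]
        linarith
      · have h2 := phi_two_exp (zz M (d + g)) hz0 hz1.le
        have h7 := VV_ge_exp l M (d + l) (by omega) (by omega) hdM
        refine le_trans ?_ h7
        apply mul_le_mul_of_nonneg_left _ (by positivity)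
        rw [div_mul_eq_mul_div]
        apply div_le_div_of_nonneg_right _ hN.le
        have h8 := LRG.h1_c M (d + g) (l + 1) (by omega) (by omega) hDM hM he2
        have e1 : ((M : ℝ) - ((d + l : ℕ) : ℝ) - ((l : ℝ) + 1)) / ((M : ℝ) + ((l : ℝ) + 1)) =
            ((M : ℝ) - (((d + g : ℕ) : ℝ) + 1) - ((l + 1 : ℕ) : ℝ)) / ((M : ℝ) + ((l + 1 : ℕ) : ℝ)) := by
          push_cast
          rw [hlR]
          congr 1
          ring
        rw [e1]
        push_cast at h8 ⊢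
        rw [hlR] at h8 ⊢
        linarith

end Pool.Agent.LRP
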