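import Mathlib
import Pool.Agent.LRP.B1
import Pool.Agent.LRP.B2
import Pool.Agent.LRP.CA

set_option autoImplicit false

/-!
# [LRP-CB] case (B): `1 ≤ c0 ≤ d`
-/

namespace Pool.Agent.LRP

open Finset
open Pool.Agent.MP_f1b527_co
open Pool.Agent.LRE

theorem cb_aa (M d g : ℕ) (hd : 1 ≤ d) :
    aa M (d - 1 + g) = ((M : ℝ) + 1) / ((d : ℝ) + g) := by
  unfold aa
  rw [Nat.cast_add, Nat.cast_sub hd]
  congr 1
  push_cast
  ring

theorem cb_half (M d : ℕ) (hd : 1 ≤ d) :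
    ((M : ℝ) + 1) / d / 2 / ((M : ℝ) + 1) ≤ 1 / ((d : ℝ) + 1) := by
  have hdR : (1 : ℝ) ≤ d := by exact_mod_cast hd
  have hN : (M : ℝ) + 1 ≠ 0 := by positivity
  have h1 : ((M : ℝ) + 1) / d / 2 / ((M : ℝ) + 1) = 1 / (2 * (d : ℝ)) := by
    field_simp
  rw [h1]
  apply one_div_le_one_div_of_le (by linarith)
  linarith

/-- Numbers for `c0 ≥ 2`, `D = d - c0 + g`, `N = M + 1`:
* `(N/(d-c0+1))/(c0+1)/N ≤ 1/(d+1)`: `(c0+1)(d-c0+1) = d + 1 + c0 (d - c0) ≥ d+1`; `VV_ge_star`;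
* `(a + g e^z)/(c0+1)/N ≤ 1/(d+g+1) + g/N`: `a/N = 1/(d-c0+g+1)` and
  `(c0+1)(d-c0+g+1) = d+g+1 + c0 (d+g-c0) ≥ d+g+1`; `e^z ≤ 3 ≤ c0+1`; `VV_ge_h`. -/
theorem num_B2 (l M d g c0 : ℕ) (t : ℝ) (hd : 1 ≤ d) (hdM : d + l ≤ M) (hg : g + 1 ≤ l)
    (h2 : 2 ≤ c0) (hc0 : c0 ≤ d)
    (ht : t ≤ max (((M : ℝ) + 1) / ((d : ℝ) - c0 + 1))
      (aa M (d - c0 + g) + g * Real.exp (zz M (d - c0 + g)))) :
    (l.factorial : ℝ) * ((M + 1).factorial : ℝ) *
      (t / ((c0 : ℝ) + 1) / ((M : ℝ) + 1)) ≤ VV (l + 1) M (d + l) := by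
  have hN : (0 : ℝ) < (M : ℝ) + 1 := by positivity
  have hcR : (2 : ℝ) ≤ c0 := by exact_mod_cast h2
  have hcd : (c0 : ℝ) ≤ d := by exact_mod_cast hc0
  have hg0 : (0 : ℝ) ≤ g := Nat.cast_nonneg g
  have hc1 : (0 : ℝ) < (c0 : ℝ) + 1 := by linarith
  rcases le_max_iff.1 ht with h1 | h1
  · apply ca_star l M d _ (by omega) hd
    have hA : (0 : ℝ) < (d : ℝ) - c0 + 1 := by linarith
    have h3 : t / ((c0 : ℝ) + 1) / ((M : ℝ) + 1) ≤
        ((M : ℝ) + 1) / ((d : ℝ) - c0 + 1) / ((c0 : ℝ) + 1) / ((M : ℝ) + 1) :=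
      div_le_div_of_nonneg_right (div_le_div_of_nonneg_right h1 hc1.le) hN.le
    refine h3.trans ?_
    have h4 : ((M : ℝ) + 1) / ((d : ℝ) - c0 + 1) / ((c0 : ℝ) + 1) / ((M : ℝ) + 1) =
        1 / (((d : ℝ) - c0 + 1) * ((c0 : ℝ) + 1)) := by
      field_simp
    rw [h4]
    apply one_div_le_one_div_of_le (by positivity)
    nlinarith
  · apply ca_h l M d g _ (by omega) hd hdM (by omega)
    have he := ca_exp M (d - c0 + g)
    have haa : aa M (d - c0 + g) = ((M : ℝ) + 1) / ((d : ℝ) - c0 + g + 1) := by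
      unfold aa
      rw [Nat.cast_add, Nat.cast_sub hc0]
    have hA : (0 : ℝ) < (d : ℝ) - c0 + g + 1 := by linarith
    have h3 : t / ((c0 : ℝ) + 1) / ((M : ℝ) + 1) ≤
        (aa M (d - c0 + g) + g * Real.exp (zz M (d - c0 + g))) / ((c0 : ℝ) + 1) / ((M : ℝ) + 1) :=
      div_le_div_of_nonneg_right (div_le_div_of_nonneg_right h1 hc1.le) hN.le
    refine h3.trans ?_
    rw [add_div, add_div, haa]
    apply add_le_add
    · have h4 : ((M : ℝ) + 1) / ((d : ℝ) - c0 + g + 1) / ((c0 : ℝ) + 1) / ((M : ℝ) + 1) =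
          1 / (((d : ℝ) - c0 + g + 1) * ((c0 : ℝ) + 1)) := by
        field_simp
      rw [h4]
      apply one_div_le_one_div_of_le (by positivity)
      nlinarith
    · apply div_le_div_of_nonneg_right _ hN.le
      rw [div_le_iff₀ hc1]
      apply mul_le_mul_of_nonneg_left _ hg0
      linarith

/-- Numbers for `c0 = 1`, `c ≥ 2`, `D = d - 1 + g`: `V = (a/2 + t/(c+1))/N`,
`t ≤ max (g e^z) (N/d - a)`.
* `a/2 + (N/d - a)/(c+1) ≤ a/2 + (N/d - a)/3 ≤ N/(2d) ≤ N/(d+1)` (`a ≤ N/d`): `VV_ge_star`;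
* `a/2 + g e^z/(c+1) ≤ a/2 + g`, `a/(2N) = 1/(2(d+g)) ≤ 1/(d+g+1)`: `VV_ge_h`. -/
theorem num_B1 (l M d g c : ℕ) (t : ℝ) (hd : 1 ≤ d) (hdM : d + l ≤ M) (hc : 2 ≤ c)
    (hcg : c + g = l)
    (ht : t ≤ max (g * Real.exp (zz M (d - 1 + g)))
      (((M : ℝ) + 1) / (d : ℝ) - aa M (d - 1 + g))) :
    (l.factorial : ℝ) * ((M + 1).factorial : ℝ) *
      ((aa M (d - 1 + g) / 2 + t / ((c : ℝ) + 1)) / ((M : ℝ) + 1)) ≤ VV (l + 1) M (d + l) := by
  have hN : (0 : ℝ) < (M : ℝ) + 1 := by positivity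
  have hcR : (2 : ℝ) ≤ c := by exact_mod_cast hc
  have hdR : (1 : ℝ) ≤ d := by exact_mod_cast hd
  have hg0 : (0 : ℝ) ≤ g := Nat.cast_nonneg g
  have hc1 : (0 : ℝ) < (c : ℝ) + 1 := by linarith
  have haa := cb_aa M d g hd
  have hpos : (0 : ℝ) < (d : ℝ) + g := by linarith
  rcases le_max_iff.1 ht with h1 | h1
  · apply ca_h l M d g _ (by omega) hd hdM (by omega)
    have he := ca_exp M (d - 1 + g)
    rw [add_div, haa]
    apply add_le_add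
    · have h4 : ((M : ℝ) + 1) / ((d : ℝ) + g) / 2 / ((M : ℝ) + 1) = 1 / (2 * ((d : ℝ) + g)) := by
        field_simp
      rw [h4]
      apply one_div_le_one_div_of_le (by linarith)
      linarith
    · apply div_le_div_of_nonneg_right _ hN.le
      rw [div_le_iff₀ hc1]
      have h2 : (g : ℝ) * Real.exp (zz M (d - 1 + g)) ≤ g * 3 :=
        mul_le_mul_of_nonneg_left (by linarith) hg0
      nlinarith
  · apply ca_star l M d _ (by omega) hd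
    have h2 : ((M : ℝ) + 1) / ((d : ℝ) + g) ≤ ((M : ℝ) + 1) / d :=
      div_le_div_of_nonneg_left hN.le (by linarith) (by linarith)
    rw [haa] at h1 ⊢
    have h3 : t / ((c : ℝ) + 1) ≤ (((M : ℝ) + 1) / d - ((M : ℝ) + 1) / ((d : ℝ) + g)) / 2 := by
      rw [div_le_iff₀ hc1]
      nlinarith
    have h4 := cb_half M d hd
    have h5 : ((M : ℝ) + 1) / ((d : ℝ) + g) / 2 + t / ((c : ℝ) + 1) ≤ ((M : ℝ) + 1) / d / 2 := by
      linarith
    exact (div_le_div_of_nonneg_right h5 hN.le).trans h4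

/-- Numbers for `c0 = 1`, `c = 1`, `g = l - 1 ≥ 1`, `D = d - 1 + g`:
`V = (a/2 + L (2g+1)/6)/N` with `L = max (e^z) ((N/d - a)/g)`.
* `a/2 + (N/d - a) (2g+1)/(6g) ≤ a/2 + (N/d - a)/2 = N/(2d) ≤ N/(d+1)`: `VV_ge_star`;
* `a/2 + e^z (2g+1)/6`, with `u = d + g`, `a = N/u`, `e^z ≤ 2.7183`:
  `≤ N/(2u) + 0.4531 + 0.9061 g`, and `N/(u+1) + g` is larger, because
  `N/(u+1) - N/(2u) = N (u-1)/(2u(u+1)) ≥ 0.4531 - 0.0939 g`: for `u ≥ 5` use `N ≥ u + 2`: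
  `(u+2)(u-1)/(2u(u+1)) = 1/2 - 1/(u(u+1)) ≥ 7/15`; for `2 ≤ u ≤ 4` use `N ≥ 31`. `VV_ge_h`. -/
theorem num_B11 (l M d g : ℕ) (hd : 1 ≤ d) (hdM : d + l ≤ M) (hM : 3 * (l + 1) ≤ M)
    (hg : 1 ≤ g) (hcg : 1 + g = l) :
    (l.factorial : ℝ) * ((M + 1).factorial : ℝ) *
      ((aa M (d - 1 + g) / 2 + max (Real.exp (zz M (d - 1 + g)))
        ((((M : ℝ) + 1) / (d : ℝ) - aa M (d - 1 + g)) / g) * ((2 * g + 1) / 6)) / ((M : ℝ) + 1))
      ≤ VV (l + 1) M (d + l) := by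
  have hN : (0 : ℝ) < (M : ℝ) + 1 := by positivity
  have hdR : (1 : ℝ) ≤ d := by exact_mod_cast hd
  have hgR : (1 : ℝ) ≤ g := by exact_mod_cast hg
  have haa := cb_aa M d g hd
  have hpos : (0 : ℝ) < (d : ℝ) + g := by linarith
  have he := ca_exp M (d - 1 + g)
  rcases max_cases (Real.exp (zz M (d - 1 + g)))
    ((((M : ℝ) + 1) / (d : ℝ) - aa M (d - 1 + g)) / g) with ⟨h1, _⟩ | ⟨h1, _⟩
  · rw [h1, haa]
    apply ca_h l M d g _ (by omega) hd hdM (by omega)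
    have hu : (1 : ℝ) / ((d : ℝ) + g + 1) + g / ((M : ℝ) + 1) =
        (((M : ℝ) + 1) / ((d : ℝ) + g + 1) + g) / ((M : ℝ) + 1) := by
      field_simp
    rw [hu]
    apply div_le_div_of_nonneg_right _ hN.le
    have h2 : Real.exp (zz M (d - 1 + g)) * ((2 * g + 1) / 6) ≤
        27183 / 10000 * ((2 * g + 1) / 6) :=
      mul_le_mul_of_nonneg_right he (by positivity)
    have h3 : 4531 / 10000 - 939 / 10000 ≤ ((M : ℝ) + 1) / ((d : ℝ) + g + 1) -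
        ((M : ℝ) + 1) / ((d : ℝ) + g) / 2 := by
      have h4 : ((M : ℝ) + 1) / ((d : ℝ) + g + 1) - ((M : ℝ) + 1) / ((d : ℝ) + g) / 2 =
          ((M : ℝ) + 1) * ((d : ℝ) + g - 1) / (2 * ((d : ℝ) + g) * ((d : ℝ) + g + 1)) := by
        field_simp
        ring
      rw [h4, le_div_iff₀ (by positivity)]
      have h5 : (d : ℝ) + g + 2 ≤ (M : ℝ) + 1 := by
        have : d + g + 2 ≤ M + 1 := by omega
        exact_mod_cast this
      have h6 : (10 : ℝ) ≤ (M : ℝ) + 1 := by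
        have : 10 ≤ M + 1 := by omega
        exact_mod_cast this
      rcases Nat.lt_or_ge (d + g) 3 with h7 | h7
      · have h8 : (d : ℝ) + g = 2 := by
          have : d + g = 2 := by omega
          exact_mod_cast this
        rw [h8]
        linarith
      · have h8 : (3 : ℝ) ≤ (d : ℝ) + g := by exact_mod_cast h7
        set u : ℝ := (d : ℝ) + g with hudef
        have h9 : (u + 2) * (u - 1) ≤ ((M : ℝ) + 1) * (u - 1) :=
          mul_le_mul_of_nonneg_right h5 (by linarith)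
        nlinarith
    linarith
  · rw [h1, haa]
    apply ca_star l M d _ (by omega) hd
    have h2 : ((M : ℝ) + 1) / ((d : ℝ) + g) ≤ ((M : ℝ) + 1) / d :=
      div_le_div_of_nonneg_left hN.le (by linarith) (by linarith)
    have h3 : (((M : ℝ) + 1) / d - ((M : ℝ) + 1) / ((d : ℝ) + g)) / g * ((2 * g + 1) / 6) ≤
        (((M : ℝ) + 1) / d - ((M : ℝ) + 1) / ((d : ℝ) + g)) / 2 := by
      rw [div_mul_eq_mul_div, div_le_iff₀ (by linarith)]
      nlinarith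
    have h4 := cb_half M d hd
    have h5 : ((M : ℝ) + 1) / ((d : ℝ) + g) / 2 +
        (((M : ℝ) + 1) / d - ((M : ℝ) + 1) / ((d : ℝ) + g)) / g * ((2 * g + 1) / 6) ≤
        ((M : ℝ) + 1) / d / 2 := by
      linarith
    exact (div_le_div_of_nonneg_right h5 hN.le).trans h4

end Pool.Agent.LRP
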