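import Mathlib
import Pool.Agent.LRP.Ctx
import Pool.Agent.LRP.CA
import Pool.Agent.MP_f1b527_co.Count

set_option autoImplicit false

/-!
# [LRP-CC] case (C): `c0 > d`
-/

namespace Pool.Agent.LRP

open Finset
open Pool.Agent.MP_f1b527_co
open Pool.Agent.LRE

open scoped Classical in
theorem cc_aux (s N β : ℕ) (hsN : s + 1 + 1 ≤ N) (hβ : β + (s + 1) ≤ N + 1)
    (r : Fin (N + (s + 1)) → Fin (N + (s + 1)) → Prop) (hirr : ∀ x, ¬ r x x)
    (htr : ∀ a b c, r a b → r b c → r a c) (hcp : cp r univ = (s + 1) * N - β) :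
    ((extSet r).ncard : ℝ) ≤
      ((s + 1).factorial : ℝ) * (N.factorial : ℝ) * (((N : ℝ) + 1) / ((N : ℝ) + 1 - β)) := by
  have hsub : N + (s + 1) - s = N + 1 := by omega
  have hmm : mm 1 s (N + (s + 1)) = s.choose 2 + (N + 1).choose 2 := by
    rw [mm, hsub, e4_sum]
  have hEE : EE 1 s (N + (s + 1)) = s.factorial * (N + 1).factorial := by
    have h0 : ∏ i ∈ range (N + 1), (i / 1 + 1) = (N + 1).factorial := by
      rw [← Finset.prod_range_add_one_eq_factorial]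
      exact Finset.prod_congr rfl fun i _ => by rw [Nat.div_one]
    rw [EE, hsub, h0]
  have hch : (N + (s + 1)).choose 2 = s.choose 2 + (N + 1).choose 2 + s * (N + 1) := by
    have h1 := e4_choose s (N + 1)
    have e : N + 1 + s = N + (s + 1) := by ring
    rw [e] at h1
    exact h1
  have h1 := ext_bound r hirr htr (δ := N - s - β) (b := 1) (c := s) le_rfl (by omega)
    (by
      rw [hmm, hch, hcp, Nat.mul_succ, Nat.succ_mul]
      have h2 : β ≤ N := by omega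
      omega)
  rw [hEE] at h1
  have e1 : N - s - β + s + 1 = N + 1 - β := by omega
  rw [e1] at h1
  have h2 : ((extSet r).ncard : ℝ) * ((N : ℝ) + 1 - β) ≤
      ((s : ℝ) + 1) * ((s.factorial : ℝ) * ((N + 1).factorial : ℝ)) := by
    have h3 : (((extSet r).ncard * (N + 1 - β) : ℕ) : ℝ) ≤
        (((s + 1) * (s.factorial * (N + 1).factorial) : ℕ) : ℝ) := by exact_mod_cast h1
    rw [Nat.cast_mul, Nat.cast_sub (by omega : β ≤ N + 1)] at h3
    push_cast at h3 ⊢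
    exact h3
  have hpos : (0 : ℝ) < (N : ℝ) + 1 - β := by
    have : (β : ℝ) + ((s : ℝ) + 1) ≤ (N : ℝ) + 1 := by exact_mod_cast hβ
    have : (0 : ℝ) ≤ s := Nat.cast_nonneg s
    linarith
  rw [← mul_div_assoc, le_div_iff₀ hpos]
  refine h2.trans (le_of_eq ?_)
  rw [Nat.factorial_succ s, Nat.factorial_succ N]
  push_cast
  ring

/-- `e(N+s, sN - β) ≤ s! N! (N+1)/(N+1-β)` for `s ≥ 1`, `β ≤ N - s + 1`. As `UB_rect` (E4.lean):
`UB_of_nested` and `ext_bound` with `b = 1`, `c = s - 1`, `δ = N - s + 1 - β`: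
`mm 1 (s-1) (N+s) = (s-1).choose 2 + (N+1).choose 2`, `EE 1 (s-1) (N+s) = (s-1)! (N+1)!`
(`e4_choose`, `e4_sum`), `(N+s).choose 2 = (s-1).choose 2 + (N+1).choose 2 + (s-1)(N+1)` and
`sN - β = (s-1)(N+1) + δ`. The result is `lin (δ + s) ≤ s (s-1)! (N+1)!`, `δ + s = N + 1 - β`. -/
theorem UB_deficit (s N β : ℕ) (hs : 1 ≤ s) (hsN : s + 1 ≤ N) (hβ : β + s ≤ N + 1) :
    UB (N + s) (s * N - β)
      ((s.factorial : ℝ) * (N.factorial : ℝ) * (((N : ℝ) + 1) / ((N : ℝ) + 1 - β))) := by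
  obtain ⟨s, rfl⟩ : ∃ s', s = s' + 1 := ⟨s - 1, by omega⟩
  exact UB_of_nested _ _ _ fun r hirr htr _ hcp => cc_aux s N β hsN hβ r hirr htr hcp

open scoped Classical in
/-- (C1): `d < c0 ≤ N - l`. With `u = c0 - d`: by `cpTY`, `cp r (T ∪ Y) ≥ s N - u`, so
`lin r (T ∪ Y) ≤ N! s! F`, `F = (N+1)/(N+1-u)` (`s ≥ 1`: `UB_deficit`, `lin_le_of_UB`;
`s = 0`: `UB_one N 0` and `F ≥ 1`). `pivot_max` and `lin_early`:
`lin ≤ N! F l!/(c0+1) ≤ l! N!/(d+1)`, because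
`(c0+1)(N+1-u) - (d+1)(N+1) = u (N - c0) ≥ 0` (`c0 = d + u`). `VV_ge_star` (`j = d + l`). -/
theorem case_C1 {n l M d : ℕ} {r : Fin n → Fin n → Prop} {C G Y : Finset (Fin n)}
    (h : Ctx r l M d C G Y) (h1 : d < cp r (C ∪ G)) (h2 : cp r (C ∪ G) + l ≤ M + 1) :
    (lin r univ : ℝ) ≤ VV (l + 1) M (d + l) := by
  have hg := h.hg
  have hdM := h.hdM
  have hear := h.lin_early
  obtain ⟨u, hu⟩ := Nat.exists_eq_add_of_lt h1
  obtain ⟨c0, hc0⟩ : ∃ c0, c0 = cp r (C ∪ G) := ⟨_, rfl⟩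
  rw [← hc0] at h1 h2 hu hear
  have hβR : ((u + 1 : ℕ) : ℝ) + d = c0 := by
    rw [hu]
    push_cast
    ring
  have hc0R : (c0 : ℝ) + l ≤ (M : ℝ) + 1 := by exact_mod_cast h2
  have hl0 : (1 : ℝ) ≤ l := by exact_mod_cast h.hl
  have hd0 : (1 : ℝ) ≤ d := by exact_mod_cast h.hd
  set F : ℝ := (((M + 1 : ℕ) : ℝ) + 1) / (((M + 1 : ℕ) : ℝ) + 1 - ((u + 1 : ℕ) : ℝ)) with hF
  have hden : (0 : ℝ) < ((M + 1 : ℕ) : ℝ) + 1 - ((u + 1 : ℕ) : ℝ) := by
    push_cast at hβR ⊢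
    linarith
  have hF1 : 1 ≤ F := by
    rw [hF, one_le_div hden]
    have : (0 : ℝ) ≤ ((u + 1 : ℕ) : ℝ) := Nat.cast_nonneg _
    linarith
  have hbase : ∀ T ⊆ G, (lin r (T ∪ Y) : ℝ) ≤
      ((M + 1).factorial : ℝ) * (T.card.factorial * F) := by
    intro T hT
    have hcp := h.cpTY hT
    have hcard := h.cardTY hT
    have hTG := Finset.card_le_card hT
    rw [← hc0] at hcp
    rcases Nat.eq_zero_or_pos T.card with hs0 | hs0
    · rw [hs0] at hcard ⊢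
      have h3 := lin_le_of_UB (UB_one (M + 1) 0) r h.hirr h.htr (T ∪ Y) hcard (Nat.zero_le _)
      rw [Nat.cast_zero, zero_add, div_one] at h3
      refine h3.trans ?_
      rw [Nat.factorial_zero, Nat.cast_one, one_mul]
      exact le_mul_of_one_le_right (by positivity) hF1
    · have h3 := lin_le_of_UB (UB_deficit T.card (M + 1) (u + 1) hs0 (by omega) (by omega)) r
        h.hirr h.htr (T ∪ Y) hcard (by omega)
      refine h3.trans (le_of_eq ?_)
      rw [← hF]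
      ring
  have h3 := pivot_max r h.piv ((M + 1).factorial : ℝ) F (by positivity) hbase
  rw [h.cov] at h3
  have h4 : ((M + 1).factorial : ℝ) * (F * lin r (C ∪ G)) ≤
      ((M + 1).factorial : ℝ) * (F * ((l.factorial : ℝ) / ((c0 : ℝ) + 1))) :=
    mul_le_mul_of_nonneg_left (mul_le_mul_of_nonneg_left hear (by linarith)) (by positivity)
  have h5 : ((M + 1).factorial : ℝ) * (F * ((l.factorial : ℝ) / ((c0 : ℝ) + 1))) =
      (l.factorial : ℝ) * ((M + 1).factorial : ℝ) * (F / ((c0 : ℝ) + 1)) := by ring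
  refine h3.trans (h4.trans (h5.le.trans ?_))
  apply ca_star l M d _ h.hl h.hd
  have hc1 : (0 : ℝ) < (c0 : ℝ) + 1 := by positivity
  rw [hF, div_div, div_le_div_iff₀ (mul_pos hden hc1) (by linarith), one_mul]
  have hu0 : (0 : ℝ) ≤ ((u + 1 : ℕ) : ℝ) := Nat.cast_nonneg _
  have h6 : 0 ≤ ((u + 1 : ℕ) : ℝ) * ((M : ℝ) + 1 - c0) := mul_nonneg hu0 (by linarith)
  rw [← hβR] at h6 ⊢
  rw [Nat.cast_add M 1, Nat.cast_one]
  nlinarith

end Pool.Agent.LRP
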