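import Mathlib
import Pool.Agent.LRP.Ctx
import Pool.Agent.LRP.CA
import Pool.Agent.LRG.G2
import Pool.Agent.LRG.G10

set_option autoImplicit false

/-!
# [LRP-CD] case (C2): `c0 > N - l`
-/

namespace Pool.Agent.LRP

open Finset
open Pool.Agent.MP_f1b527_co
open Pool.Agent.LRE

open scoped Classical in
/-- (C2): `c0 > N - l`, `N = M + 1`. With `E = hh (l-1) (c0/(l-1))`: `lin r (C ∪ G) ≤ l! E`
(`lin_early2`), and for `T ⊆ G`, `lin r (T ∪ Y) ≤ N! |T|! (l+1)/(N E)` (`num_C2`); `pivot_max` and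
`VV_ge_ss`. -/
theorem case_C2 {n l M d : ℕ} {r : Fin n → Fin n → Prop} {C G Y : Finset (Fin n)}
    (h : Ctx r l M d C G Y) (h2 : M + 1 < cp r (C ∪ G) + l) :
    (lin r univ : ℝ) ≤ VV (l + 1) M (d + l) := by
  have hg := h.hg
  have hdM := h.hdM
  have hM := h.hM
  have hl := h.hl
  have hd := h.hd
  have hasym : ∀ x y, r x y → ¬ r y x := fun x y hxy hyx => h.hirr x (h.htr x y x hxy hyx)
  have htwo := two_cp_le r h.hirr hasym (C ∪ G)
  rw [h.cardCG] at htwo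
  obtain ⟨κ, hκ⟩ : ∃ κ, κ = cp r (C ∪ G) := ⟨_, rfl⟩
  rw [← hκ] at h2 htwo
  have hκ2 : 2 * κ ≤ l * (l - 1) := by
    obtain ⟨q, rfl⟩ : ∃ q, l = q + 1 := ⟨l - 1, by omega⟩
    rw [Nat.add_sub_cancel]
    have e : (q + 1) * (q + 1) = (q + 1) * q + (q + 1) := Nat.mul_succ _ _
    omega
  have hl2 : 2 ≤ l := by
    by_contra hc
    have : l = 1 := by omega
    subst this
    omega
  have hl1 : (0 : ℝ) < (l : ℝ) - 1 := by
    have : (2 : ℝ) ≤ l := by exact_mod_cast hl2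
    linarith
  obtain ⟨E, hE⟩ : ∃ E : ℝ, E = LRT.hh (l - 1) ((κ : ℝ) / ((l : ℝ) - 1)) := ⟨_, rfl⟩
  have hE0 : 0 < E := by
    rw [hE]
    exact LRT.hh_pos _ (div_nonneg (Nat.cast_nonneg _) hl1.le)
  have hN : (0 : ℝ) < (M : ℝ) + 1 := by positivity
  have hNE : 0 < ((M : ℝ) + 1) * E := mul_pos hN hE0
  have hear := LRG.lin_early2 r h.hirr h.htr (C ∪ G) l hl2 h.cardCG
  rw [← hκ, ← hE] at hear
  have hbase : ∀ T ⊆ G, (lin r (T ∪ Y) : ℝ) ≤
      ((M + 1).factorial : ℝ) * (T.card.factorial * (((l : ℝ) + 1) / (((M : ℝ) + 1) * E))) := by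
    intro T hT
    have hcp := h.cpTY hT
    have hcard := h.cardTY hT
    have hTG := Finset.card_le_card hT
    rw [← hκ] at hcp
    obtain ⟨V, hV1, hV2⟩ := LRG.num_C2 l (M + 1) T.card κ (by omega) (by omega) h2 hκ2
    have h3 := lin_le_of_UB hV1 r h.hirr h.htr (T ∪ Y) hcard (by omega)
    refine h3.trans ?_
    rw [← hE] at hV2
    push_cast at hV2
    have e1 : ((M + 1).factorial : ℝ) * (T.card.factorial * (((l : ℝ) + 1) / (((M : ℝ) + 1) * E))) =
        ((M + 1).factorial : ℝ) * (T.card.factorial : ℝ) * ((l : ℝ) + 1) /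
          (((M : ℝ) + 1) * E) := by ring
    rw [e1, le_div_iff₀ hNE]
    exact hV2
  have h3 := pivot_max r h.piv ((M + 1).factorial : ℝ) (((l : ℝ) + 1) / (((M : ℝ) + 1) * E))
    (by positivity) hbase
  rw [h.cov] at h3
  have hF0 : 0 ≤ ((l : ℝ) + 1) / (((M : ℝ) + 1) * E) := by positivity
  have h4 : ((M + 1).factorial : ℝ) * (((l : ℝ) + 1) / (((M : ℝ) + 1) * E) * lin r (C ∪ G)) ≤
      ((M + 1).factorial : ℝ) * (((l : ℝ) + 1) / (((M : ℝ) + 1) * E) *
        ((l.factorial : ℝ) * E)) :=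
    mul_le_mul_of_nonneg_left (mul_le_mul_of_nonneg_left hear hF0) (by positivity)
  have h5 : ((M + 1).factorial : ℝ) * (((l : ℝ) + 1) / (((M : ℝ) + 1) * E) *
        ((l.factorial : ℝ) * E)) =
      (l.factorial : ℝ) * ((M + 1).factorial : ℝ) * (((l : ℝ) + 1) / ((M : ℝ) + 1)) := by
    field_simp
  refine h3.trans (h4.trans (h5.le.trans ?_))
  refine le_trans ?_ (VV_ge_ss l M (d + l) (by omega) hdM)
  apply mul_le_mul_of_nonneg_left _ (by positivity)
  have h6 : (1 : ℝ) / ((M : ℝ) + 1) ≤ 1 / (((d + l : ℕ) : ℝ) + 1) := by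
    apply one_div_le_one_div_of_le (by positivity)
    have : ((d + l : ℕ) : ℝ) ≤ M := by exact_mod_cast hdM
    linarith
  rw [add_div]
  linarith

end Pool.Agent.LRP
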