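import Mathlib
import Pool.Agent.LRP.P2

set_option autoImplicit false

/-!
# [LRP-P3] the pivot bound for one early point and one early relation
-/

namespace Pool.Agent.LRP

open Finset
open Pool.Agent.MP_f1b527_co
open Pool.Agent.LRE

variable {X : Type*} [DecidableEq X] (r : X → X → Prop) [DecidableRel r]

/-- `C = {x}`, the only relation inside `C ∪ G` is `x < w`. Induction on `|T|`, `g = |T| ≥ 1`:
`mins r ({x} ∪ T ∪ Y) = insert x (T.erase w)` (`mins_pivot`; `gmax`; `hw`, `hx`). By `lin_rec`,
`lin = lin (T ∪ Y) + ∑_{v ∈ T.erase w} lin ({x} ∪ T.erase v ∪ Y)`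
`≤ W g! (α + β g) + (g-1) W g! (α/2 + β (2g-1)/6) = W (g+1)! (α/2 + β (2g+1)/6)`. -/
theorem pivot_one {G Y : Finset X} {x w : X} (hirr : ∀ z, ¬ r z z) (h : Piv r {x} G Y)
    (hw : r x w) (hx : ∀ v ∈ G, v ≠ w → ¬ r x v) (W α β : ℝ)
    (hbase : ∀ T ⊆ G, (lin r (T ∪ Y) : ℝ) ≤ W * (T.card.factorial * (α + β * T.card))) :
    ∀ T ⊆ G, w ∈ T → (lin r (({x} ∪ T) ∪ Y) : ℝ) ≤
      W * (((T.card + 1).factorial : ℝ) * (α / 2 + β * ((2 * T.card + 1) / 6))) := by
  intro T hT hwT
  induction hn : T.card generalizing T with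
  | zero =>
    rw [Finset.card_eq_zero] at hn
    subst hn
    exact absurd hwT (Finset.notMem_empty w)
  | succ n ih =>
    have hxG : x ∉ G := Finset.disjoint_left.1 h.cg (Finset.mem_singleton_self x)
    have hxT : x ∉ T := fun h1 => hxG (hT h1)
    have hxY : x ∉ Y := Finset.disjoint_left.1 h.cy (Finset.mem_singleton_self x)
    have hS : (({x} ∪ T) ∪ Y).Nonempty :=
      ⟨x, Finset.mem_union_left _ (Finset.mem_union_left _ (Finset.mem_singleton_self x))⟩
    have hsub : {x} ∪ T ⊆ {x} ∪ G := Finset.union_subset_union (Finset.Subset.refl _) hT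
    have hm : mins r ({x} ∪ T) = insert x (T.erase w) := by
      ext v
      rw [mem_mins, Finset.mem_insert, Finset.mem_erase, Finset.mem_union, Finset.mem_singleton]
      constructor
      · rintro ⟨h1, h2⟩
        rcases h1 with h1 | h1
        · exact Or.inl h1
        · refine Or.inr ⟨?_, h1⟩
          rintro rfl
          exact h2 x (Finset.mem_union_left _ (Finset.mem_singleton_self x)) hw
      · intro h1
        refine ⟨h1.imp id fun h2 => h2.2, fun y hy hyv => ?_⟩
        have hvS : v ∈ ({x} : Finset X) ∪ G := by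
          rcases h1 with h2 | h2
          · rw [h2]
            exact Finset.mem_union_left _ (Finset.mem_singleton_self x)
          · exact Finset.mem_union_right _ (hT h2.2)
        rcases Finset.mem_union.1 hy with h2 | h2
        · rw [Finset.mem_singleton.1 h2] at hyv
          rcases h1 with h3 | h3
          · rw [h3] at hyv
            exact hirr x hyv
          · exact hx v (hT h3.2) h3.1 hyv
        · exact h.gmax y (hT h2) v hvS hyv
    rw [lin_rec r hS, mins_pivot r h ({x} ∪ T) hsub ⟨x, Finset.mem_singleton_self x,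
      Finset.mem_union_left _ (Finset.mem_singleton_self x)⟩, hm,
      Finset.sum_insert (fun h1 => hxT (Finset.mem_of_mem_erase h1))]
    push_cast
    have e1 : (({x} ∪ T) ∪ Y).erase x = T ∪ Y := by
      rw [Finset.erase_union_distrib, Finset.erase_union_distrib, Finset.erase_eq_of_notMem hxT,
        Finset.erase_eq_of_notMem hxY, Finset.erase_singleton, Finset.empty_union]
    rw [e1]
    have h1 := hbase T hT
    rw [hn] at h1
    have h2 : ∀ v ∈ T.erase w, (lin r ((({x} ∪ T) ∪ Y).erase v) : ℝ) ≤
        W * (((n + 1).factorial : ℝ) * (α / 2 + β * ((2 * n + 1) / 6))) := by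
      intro v hv
      have hvT := Finset.mem_of_mem_erase hv
      have hvw : v ≠ w := Finset.ne_of_mem_erase hv
      have hvx : v ≠ x := fun h3 => hxT (h3 ▸ hvT)
      have hvY : v ∉ Y := fun h3 => Finset.disjoint_left.1 h.gy (hT hvT) h3
      have e2 : (({x} ∪ T) ∪ Y).erase v = ({x} ∪ T.erase v) ∪ Y := by
        rw [Finset.erase_union_distrib, Finset.erase_union_distrib, Finset.erase_eq_of_notMem hvY,
          Finset.erase_eq_of_notMem (fun h3 => hvx (Finset.mem_singleton.1 h3))]
      rw [e2]
      have c1 : (T.erase v).card + 1 = T.card := Finset.card_erase_add_one hvT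
      exact ih (T.erase v) ((Finset.erase_subset _ _).trans hT)
        (Finset.mem_erase.2 ⟨hvw.symm, hwT⟩) (by omega)
    have h3 := Finset.sum_le_sum h2
    rw [Finset.sum_const, nsmul_eq_mul] at h3
    have c2 : ((T.erase w).card : ℝ) = n := by
      have : (T.erase w).card + 1 = T.card := Finset.card_erase_add_one hwT
      have : (T.erase w).card = n := by omega
      rw [this]
    rw [c2] at h3
    refine (add_le_add h1 h3).trans (le_of_eq ?_)
    have e3 : ((n + 1 + 1).factorial : ℝ) = ((n : ℝ) + 2) * ((n + 1).factorial : ℝ) := by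
      rw [Nat.factorial_succ (n + 1)]
      push_cast
      ring
    rw [e3]
    push_cast
    ring

/-- If `C = {x}` and there is exactly one relation inside `C ∪ G`, it is `x < w` with `w ∈ G`
(`gmax`: no relation starts in `G`; `hirr`). `cp r S = ∑ x ∈ S, ∑ y ∈ S, C r x y`. -/
theorem exists_w {G Y : Finset X} {x : X} (hirr : ∀ z, ¬ r z z) (h : Piv r {x} G Y)
    (h1 : cp r ({x} ∪ G) = 1) : ∃ w ∈ G, r x w ∧ ∀ v ∈ G, v ≠ w → ¬ r x v := by
  have hxG : x ∉ G := Finset.disjoint_left.1 h.cg (Finset.mem_singleton_self x)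
  have h2 : cp r ({x} ∪ G) = (G.filter (fun v => r x v)).card := by
    unfold cp
    rw [Finset.sum_union h.cg, Finset.sum_singleton, Finset.sum_union h.cg, Finset.sum_singleton]
    have e1 : C r x x = 0 := by
      unfold C
      exact if_neg (hirr x)
    have e2 : ∑ a ∈ G, ∑ b ∈ {x} ∪ G, C r a b = 0 := by
      apply Finset.sum_eq_zero
      intro a ha
      apply Finset.sum_eq_zero
      intro b hb
      unfold C
      exact if_neg (h.gmax a ha b hb)
    rw [e1, e2, zero_add, add_zero, Finset.card_filter]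
    rfl
  rw [h1] at h2
  obtain ⟨w, hw⟩ := Finset.card_eq_one.1 h2.symm
  have hwm : w ∈ G.filter (fun v => r x v) := by
    rw [hw]
    exact Finset.mem_singleton_self w
  refine ⟨w, (Finset.mem_filter.1 hwm).1, (Finset.mem_filter.1 hwm).2, fun v hv hvw hxv => ?_⟩
  have h3 : v ∈ G.filter (fun v => r x v) := Finset.mem_filter.2 ⟨hv, hxv⟩
  rw [hw] at h3
  exact hvw (Finset.mem_singleton.1 h3)

end Pool.Agent.LRP
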