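import Mathlib
import Pool.Agent.LRP.P3
import Pool.Agent.LRP.CA
import Pool.Agent.LRP.CB
import Pool.Agent.LRP.CC
import Pool.Agent.LRP.CD

set_option autoImplicit false

/-!
# LRP: assembly (class `#minimal points ≤ m - 1`)
-/

namespace Pool.Agent.LRP

open Finset
open Pool.Agent.MP_f1b527_co
open Pool.Agent.LRE

section
variable {n l M d : ℕ} {r : Fin n → Fin n → Prop} {C G Y : Finset (Fin n)}

theorem aa_nonneg (M D : ℕ) : 0 ≤ aa M D := by
  unfold aa
  positivity

theorem W_nonneg (M : ℕ) : (0 : ℝ) ≤ ((M + 1).factorial : ℝ) := Nat.cast_nonneg _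

open scoped Classical in
/-- the pivot bound with a chord `FF M D s ≤ a + L s` -/
theorem pivot_chord (h : Ctx r l M d C G Y) (hIH : IH l M) (hc0 : cp r (C ∪ G) ≤ d) (L : ℝ)
    (hL : 0 ≤ L)
    (hF : ∀ s ≤ G.card, FF M (d - cp r (C ∪ G) + G.card) s ≤
      aa M (d - cp r (C ∪ G) + G.card) + L * s) :
    (lin r univ : ℝ) ≤ (l.factorial : ℝ) * ((M + 1).factorial : ℝ) *
      ((aa M (d - cp r (C ∪ G) + G.card) / ((cp r (C ∪ G) : ℝ) + 1) +
        (L * G.card) / ((C.card : ℝ) + 1)) / ((M : ℝ) + 1)) := by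
  have hN : (0 : ℝ) < (M : ℝ) + 1 := by positivity
  set a := aa M (d - cp r (C ∪ G) + G.card) with ha
  have ha0 : 0 ≤ a := aa_nonneg _ _
  have h1 := pivot_bound r h.piv ((M + 1).factorial : ℝ) (a / ((M : ℝ) + 1)) (L / ((M : ℝ) + 1))
    (W_nonneg M) (by positivity) (fun T hT => ?_) C (Finset.Subset.refl _) G
    (Finset.Subset.refl _)
  · rw [h.cov, h.hcard] at h1
    refine h1.trans ?_
    have h2 := h.lin_early
    have h3 : a / ((M : ℝ) + 1) * (lin r (C ∪ G) : ℝ) ≤
        a / ((M : ℝ) + 1) * ((l.factorial : ℝ) / ((cp r (C ∪ G) : ℝ) + 1)) :=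
      mul_le_mul_of_nonneg_left h2 (by positivity)
    have h4 : ((M + 1).factorial : ℝ) * (a / ((M : ℝ) + 1) * lin r (C ∪ G) +
        L / ((M : ℝ) + 1) * (l.factorial : ℝ) * (G.card / ((C.card : ℝ) + 1))) ≤
        ((M + 1).factorial : ℝ) * (a / ((M : ℝ) + 1) *
          ((l.factorial : ℝ) / ((cp r (C ∪ G) : ℝ) + 1)) +
        L / ((M : ℝ) + 1) * (l.factorial : ℝ) * (G.card / ((C.card : ℝ) + 1))) :=
      mul_le_mul_of_nonneg_left (by linarith) (W_nonneg M)
    refine h4.trans (le_of_eq ?_)
    have e1 : ((cp r (C ∪ G) : ℝ) + 1) ≠ 0 := by positivity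
    have e2 : ((C.card : ℝ) + 1) ≠ 0 := by positivity
    field_simp
  · refine (base_bound h hIH hc0 T hT).trans ?_
    apply mul_le_mul_of_nonneg_left _ (W_nonneg M)
    apply mul_le_mul_of_nonneg_left _ (Nat.cast_nonneg _)
    have h5 := hF T.card (Finset.card_le_card hT)
    calc FF M (d - cp r (C ∪ G) + G.card) T.card / ((M : ℝ) + 1)
        ≤ (a + L * T.card) / ((M : ℝ) + 1) := div_le_div_of_nonneg_right h5 hN.le
      _ = a / ((M : ℝ) + 1) + L / ((M : ℝ) + 1) * T.card := by ring

open scoped Classical in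
/-- case (A), `c ≥ 2`, or `g = 0` -/
theorem case_A (h : Ctx r l M d C G Y) (hIH : IH l M) (hc0 : cp r (C ∪ G) = 0) :
    (lin r univ : ℝ) ≤ VV (l + 1) M (d + l) := by
  have hN : (0 : ℝ) < (M : ℝ) + 1 := by positivity
  have hD : d - cp r (C ∪ G) + G.card = d + G.card := by rw [hc0]; omega
  have hg1 := h.hg
  have hc1 := h.hc
  have hdM := h.hdM
  have hgD : G.card ≤ d + G.card := by omega
  have hDM : d + G.card ≤ M := by omega
  have hz := zz_nonneg hDM
  have hez : 1 ≤ Real.exp (zz M (d + G.card)) := Real.one_le_exp hz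
  rcases Nat.eq_zero_or_pos G.card with hg0 | hg0
  · -- g = 0
    have h1 := pivot_chord h hIH (by omega) (Real.exp (zz M (d + G.card))) (by positivity)
      (fun s hs => by
        rw [hD]
        exact FF_chord M _ G.card s _ hs hgD hDM le_rfl (by
          rw [hg0]
          unfold aa
          push_cast
          simp))
    rw [hD, hc0, hg0] at h1
    refine h1.trans (le_trans (le_of_eq ?_) (VV_ge_star l M (d + l) h.hl (by have := h.hd; omega)))
    unfold aa
    push_cast
    have e1 : ((d : ℝ) + l - l + 1) = (d : ℝ) + 1 := by ring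
    rw [e1]
    have e2 : ((d : ℝ) + 1) ≠ 0 := by positivity
    field_simp
    ring
  · have hg0' : (0 : ℝ) < G.card := by exact_mod_cast hg0
    have hDg : (((d + G.card : ℕ) : ℝ) - G.card + 1) = (d : ℝ) + 1 := by push_cast; ring
    rcases Nat.lt_or_ge C.card 2 with hc2 | hc2
    · -- c = 1
      have hc : C.card = 1 := by omega
      have hcg : 1 + G.card = l := by have := h.hcard; omega
      set t := max (max (((M : ℝ) + 1) / ((d : ℝ) + 1) - aa M (d + G.card)) G.card)
        (2 * phi 2 (zz M (d + G.card)) + ((G.card : ℝ) - 1) * Real.exp (zz M (d + G.card)) -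
          aa M (d + G.card)) with ht
      have ht1 : (G.card : ℝ) ≤ t := (le_max_right _ _).trans (le_max_left _ _)
      have ht2 : ((M : ℝ) + 1) / ((d : ℝ) + 1) - aa M (d + G.card) ≤ t :=
        (le_max_left _ _).trans (le_max_left _ _)
      have ht3 : 2 * phi 2 (zz M (d + G.card)) +
        ((G.card : ℝ) - 1) * Real.exp (zz M (d + G.card)) - aa M (d + G.card) ≤ t :=
        le_max_right _ _
      have htg : t / G.card * G.card = t := div_mul_cancel₀ _ hg0'.ne'
      have h1 := pivot_chord h hIH (by omega) (t / G.card) (by positivity)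
        (fun s hs => by
          rw [hD]
          exact FF_chord2 M _ G.card s _ hs hgD hDM (by rw [one_le_div hg0']; exact ht1)
            (by rw [hDg, htg]; exact ht2) (by rw [htg]; exact ht3))
      rw [hD, hc0, hc, htg] at h1
      have h2 := num_A1 l M d G.card t h.hd hdM h.hM hg0 hcg le_rfl
      refine h1.trans (le_trans (le_of_eq ?_) h2)
      push_cast
      ring
    · -- c ≥ 2
      set t := max (G.card * Real.exp (zz M (d + G.card)))
        (((M : ℝ) + 1) / ((d : ℝ) + 1) - aa M (d + G.card)) with ht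
      have ht1 : G.card * Real.exp (zz M (d + G.card)) ≤ t := le_max_left _ _
      have ht2 : ((M : ℝ) + 1) / ((d : ℝ) + 1) - aa M (d + G.card) ≤ t := le_max_right _ _
      have htg : t / G.card * G.card = t := div_mul_cancel₀ _ hg0'.ne'
      have ht0 : 0 ≤ t := le_trans (by positivity) ht1
      have h1 := pivot_chord h hIH (by omega) (t / G.card) (by positivity)
        (fun s hs => by
          rw [hD]
          exact FF_chord M _ G.card s _ hs hgD hDM
            (by rw [le_div_iff₀ hg0', mul_comm]; exact ht1)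
            (by rw [hDg, htg]; exact ht2))
      rw [hD, hc0, htg] at h1
      have h2 := num_A2 l M d G.card C.card t h.hd hdM hc2 h.hcard le_rfl
      refine h1.trans (le_trans (le_of_eq ?_) h2)
      push_cast
      ring

open scoped Classical in
/-- case (B), `c0 ≥ 2` -/
theorem case_B2 (h : Ctx r l M d C G Y) (hIH : IH l M) (hc0 : cp r (C ∪ G) ≤ d)
    (h2 : 2 ≤ cp r (C ∪ G)) : (lin r univ : ℝ) ≤ VV (l + 1) M (d + l) := by
  have hN : (0 : ℝ) < (M : ℝ) + 1 := by positivity
  have hg1 := h.hg
  have hdM := h.hdM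
  set c0 := cp r (C ∪ G) with hc0def
  set D := d - c0 + G.card with hD
  have hDM : D ≤ M := by omega
  have hgD : G.card ≤ D := by omega
  set t := max (((M : ℝ) + 1) / ((d : ℝ) - c0 + 1)) (aa M D + G.card * Real.exp (zz M D)) with ht
  have hcast : ((D : ℝ) - G.card + 1) = (d : ℝ) - c0 + 1 := by
    rw [hD]
    push_cast [Nat.cast_sub hc0]
    ring
  have h1 := pivot_max r h.piv ((M + 1).factorial : ℝ) (t / ((M : ℝ) + 1)) (W_nonneg M)
    (fun T hT => by
      refine (base_bound h hIH hc0 T hT).trans ?_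
      apply mul_le_mul_of_nonneg_left _ (W_nonneg M)
      apply mul_le_mul_of_nonneg_left _ (Nat.cast_nonneg _)
      apply div_le_div_of_nonneg_right _ hN.le
      have h3 := FF_max M D G.card T.card (Finset.card_le_card hT) hgD hDM
      rw [hcast] at h3
      exact h3)
  rw [h.cov] at h1
  have ht0 : 0 ≤ t := by
    refine le_trans ?_ (le_max_right _ _)
    have := aa_nonneg M D
    positivity
  have h3 := h.lin_early
  have h4 := num_B2 l M d G.card c0 t h.hd hdM hg1 h2 hc0 le_rfl
  refine h1.trans (le_trans ?_ h4)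
  have h5 : ((M + 1).factorial : ℝ) * (t / ((M : ℝ) + 1) * lin r (C ∪ G)) ≤
      ((M + 1).factorial : ℝ) * (t / ((M : ℝ) + 1) * ((l.factorial : ℝ) / ((c0 : ℝ) + 1))) :=
    mul_le_mul_of_nonneg_left (mul_le_mul_of_nonneg_left h3 (by positivity)) (W_nonneg M)
  refine h5.trans (le_of_eq ?_)
  have e1 : ((c0 : ℝ) + 1) ≠ 0 := by positivity
  field_simp

open scoped Classical in
/-- case (B), `c0 = 1` -/
theorem case_B1 (h : Ctx r l M d C G Y) (hIH : IH l M)
    (h2 : cp r (C ∪ G) = 1) : (lin r univ : ℝ) ≤ VV (l + 1) M (d + l) := by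
  have hN : (0 : ℝ) < (M : ℝ) + 1 := by positivity
  have hg1 := h.hg
  have hc1 := h.hc
  have hdM := h.hdM
  have hd := h.hd
  have hcc := h.hcard
  have hc0 : cp r (C ∪ G) ≤ d := by omega
  have hD : d - cp r (C ∪ G) + G.card = d - 1 + G.card := by rw [h2]
  set D := d - 1 + G.card with hDdef
  have hDM : D ≤ M := by omega
  have hgD : G.card ≤ D := by omega
  have hz := zz_nonneg hDM
  have hez : 1 ≤ Real.exp (zz M D) := Real.one_le_exp hz
  have hcast : ((D : ℝ) - G.card + 1) = (d : ℝ) := by
    rw [hDdef]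
    push_cast [Nat.cast_sub hd]
    ring
  -- a ≤ N / d
  have had : aa M D ≤ ((M : ℝ) + 1) / d := by
    unfold aa
    have hd0 : (0 : ℝ) < d := by exact_mod_cast hd
    apply div_le_div_of_nonneg_left hN.le hd0
    have : (d : ℝ) ≤ ((D + 1 : ℕ) : ℝ) := by
      have : d ≤ D + 1 := by omega
      exact_mod_cast this
    push_cast at this
    exact this
  rcases Nat.lt_or_ge C.card 2 with hc2 | hc2
  · -- c = 1
    have hc : C.card = 1 := by omega
    obtain ⟨x, hx⟩ := Finset.card_eq_one.mp hc
    have hpiv := h.piv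
    rw [hx] at hpiv h2
    obtain ⟨w, hw1, hw2, hw3⟩ := exists_w r h.hirr hpiv h2
    have hg0 : 0 < G.card := Finset.card_pos.mpr ⟨w, hw1⟩
    have hg0' : (0 : ℝ) < G.card := by exact_mod_cast hg0
    set L := max (Real.exp (zz M D)) ((((M : ℝ) + 1) / (d : ℝ) - aa M D) / G.card) with hL
    have hL1 : Real.exp (zz M D) ≤ L := le_max_left _ _
    have hL2 : ((M : ℝ) + 1) / (d : ℝ) - aa M D ≤ L * G.card := by
      have h5 : (((M : ℝ) + 1) / (d : ℝ) - aa M D) / G.card ≤ L := le_max_right _ _
      rwa [div_le_iff₀ hg0'] at h5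
    have h1 := pivot_one r h.hirr hpiv hw2 hw3 ((M + 1).factorial : ℝ)
      (aa M D / ((M : ℝ) + 1)) (L / ((M : ℝ) + 1)) (fun T hT => by
        refine (base_bound h hIH hc0 T hT).trans ?_
        apply mul_le_mul_of_nonneg_left _ (W_nonneg M)
        apply mul_le_mul_of_nonneg_left _ (Nat.cast_nonneg _)
        rw [hD]
        have h5 := FF_chord M D G.card T.card L (Finset.card_le_card hT) hgD hDM hL1
          (by rw [hcast]; exact hL2)
        calc FF M D T.card / ((M : ℝ) + 1)
            ≤ (aa M D + L * T.card) / ((M : ℝ) + 1) := div_le_div_of_nonneg_right h5 hN.le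
          _ = aa M D / ((M : ℝ) + 1) + L / ((M : ℝ) + 1) * T.card := by ring)
      G (Finset.Subset.refl _) hw1
    have hcov := h.cov
    rw [hx] at hcov
    rw [hcov] at h1
    have hgl : G.card + 1 = l := by omega
    rw [hgl] at h1
    have h4 := num_B11 l M d G.card hd hdM h.hM hg0 (by omega)
    refine h1.trans (le_trans (le_of_eq ?_) h4)
    rw [← hDdef, ← hL]
    ring
  · -- c ≥ 2
    set t := max (G.card * Real.exp (zz M D)) (((M : ℝ) + 1) / (d : ℝ) - aa M D) with ht
    have ht1 : G.card * Real.exp (zz M D) ≤ t := le_max_left _ _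
    have ht2 : ((M : ℝ) + 1) / (d : ℝ) - aa M D ≤ t := le_max_right _ _
    have ht0 : 0 ≤ t := le_trans (by linarith) ht2
    rcases Nat.eq_zero_or_pos G.card with hg0 | hg0
    · have h1 := pivot_chord h hIH hc0 (Real.exp (zz M D)) (by positivity)
        (fun s hs => by
          rw [hD]
          have hs0 : s = 0 := by omega
          subst hs0
          unfold FF aa
          push_cast
          rw [phi_one, one_sub_zz]
          unfold aa
          simp)
      rw [hD, h2, hg0] at h1
      have h4 := num_B1 l M d 0 C.card 0 hd hdM hc2 (by omega) (by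
        refine le_trans ?_ (le_max_right _ _)
        have hDD : d - 1 + 0 = D := by omega
        rw [hDD]
        linarith)
      refine h1.trans (le_trans (le_of_eq ?_) h4)
      have hDD : d - 1 + 0 = D := by omega
      rw [hDD]
      push_cast
      ring
    · have hg0' : (0 : ℝ) < G.card := by exact_mod_cast hg0
      have htg : t / G.card * G.card = t := div_mul_cancel₀ _ hg0'.ne'
      have h1 := pivot_chord h hIH hc0 (t / G.card) (by positivity)
        (fun s hs => by
          rw [hD]
          exact FF_chord M D G.card s _ hs hgD hDM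
            (by rw [le_div_iff₀ hg0', mul_comm]; exact ht1)
            (by rw [hcast, htg]; exact ht2))
      rw [hD, h2, htg] at h1
      have h4 := num_B1 l M d G.card C.card t hd hdM hc2 h.hcard le_rfl
      refine h1.trans (le_trans (le_of_eq ?_) h4)
      rw [← hDdef]
      push_cast
      ring

open scoped Classical in
theorem case_all (h : Ctx r l M d C G Y) (hIH : IH l M) :
    (lin r univ : ℝ) ≤ VV (l + 1) M (d + l) := by
  rcases Nat.lt_or_ge d (cp r (C ∪ G)) with h1 | h1
  · rcases Nat.lt_or_ge (M + 1) (cp r (C ∪ G) + l) with h2 | h2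
    · exact case_C2 h h2
    · exact case_C1 h h1 h2
  · rcases Nat.lt_or_ge (cp r (C ∪ G)) 2 with h2 | h2
    · rcases Nat.eq_zero_or_pos (cp r (C ∪ G)) with h3 | h3
      · exact case_A h hIH h3
      · exact case_B1 h hIH (by omega)
    · exact case_B2 h hIH h1 h2

end

open scoped Classical in
/-- nested orders with at most `m - 1 = l` minimal points -/
theorem few_min (l M d : ℕ) (hd : 1 ≤ d) (hdM : d + l ≤ M) (hM : 3 * (l + 1) ≤ M)
    (hIH : IH l M) (r : Fin (M + (l + 1)) → Fin (M + (l + 1)) → Prop) (hirr : ∀ x, ¬ r x x)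
    (htr : ∀ a b c, r a b → r b c → r a c) (ht : ∀ x y, tle r x y ∨ tle r y x)
    (hk : cp r univ = l * M + (d + l)) (hmin : (mins r univ).card ≤ l) :
    ((extSet r).ncard : ℝ) ≤ VV (l + 1) M (d + l) := by
  rw [extSet_ncard r hirr]
  obtain ⟨C, G, Y, h1, h2, h3⟩ := exists_pivot r hirr ht l (by omega) hmin
  have hY : Y.card = M + 1 := by
    have e1 : Disjoint (C ∪ G) Y := Finset.disjoint_union_left.mpr ⟨h1.cy, h1.gy⟩
    have e2 := Finset.card_union_of_disjoint e1
    rw [h2, Finset.card_union_of_disjoint h1.cg, h3, Finset.card_univ, Fintype.card_fin] at e2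
    omega
  have hctx : Ctx r l M d C G Y :=
    { hirr := hirr, htr := htr, piv := h1, cov := h2, hcard := h3, hY := hY, hd := hd, hdM := hdM,
      hM := hM, hk := by rw [hk]; ring }
  exact case_all hctx hIH

end Pool.Agent.LRP
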