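import Mathlib
import Pool.Agent.LRP.Z1
import Pool.Agent.LRT.Z2
import Pool.Agent.LRE.Z1

set_option autoImplicit false

/-!
# LRP: the upper bound for all `k ≤ n²/64`, from the box theorem
-/

namespace Pool.Agent.LRP

open Finset
open Pool.Agent.MP_f1b527_co
open Pool.Agent.LRE
open Pool.Agent.LRT

/-- the box theorem (a shape with at most `M` rows and at most `M` columns) -/
def Box : Prop :=
  ∀ (m M : ℕ) (s : Multiset ℕ), 2 ≤ m → 3 * m ≤ M → (∀ x ∈ s, 0 < x) → s.card ≤ M →
    s.sup ≤ M → (m - 1) * (M + 1) < s.sum → s.sum ≤ m * M →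
    psi s ≤ max (NN m s.sum) (NN M s.sum)

/-! ### values of `NN` -/

theorem hh_fac (c b : ℕ) :
    ((b + c).factorial : ℝ) * hh c (b : ℝ) = (c.factorial : ℝ) * (b.factorial : ℝ) := by
  induction c with
  | zero => rw [hh_zero]; simp
  | succ c ih =>
    rw [hh_succ, Nat.factorial_succ]
    have h1 : b + (c + 1) = (b + c) + 1 := by ring
    rw [h1, Nat.factorial_succ]
    push_cast
    have h2 : (b : ℝ) + ((c : ℝ) + 1) ≠ 0 := by positivity
    have h3 : ((b : ℝ) + c + 1) = (b : ℝ) + ((c : ℝ) + 1) := by ring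
    rw [h3]
    calc ((b : ℝ) + ((c : ℝ) + 1)) * ((b + c).factorial : ℝ) *
          (hh c b * (((c : ℝ) + 1) / ((b : ℝ) + ((c : ℝ) + 1))))
        = (((b + c).factorial : ℝ) * hh c b) * ((c : ℝ) + 1) *
          (((b : ℝ) + ((c : ℝ) + 1)) / ((b : ℝ) + ((c : ℝ) + 1))) := by ring
      _ = ((c : ℝ) + 1) * (c.factorial : ℝ) * (b.factorial : ℝ) := by
          rw [div_self h2, ih]; ring

theorem hh_prod (m M : ℕ) : ∀ u : ℕ, u ≤ M →
    ((M + m).factorial : ℝ) * hh m ((M - u : ℕ) : ℝ) =
      (m.factorial : ℝ) * M.factorial * ∏ i ∈ range u, ((M : ℝ) + m - i) / ((M : ℝ) - i) := by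
  intro u
  induction u with
  | zero =>
    intro _
    rw [prod_range_zero, mul_one, Nat.sub_zero]
    exact hh_fac m M
  | succ u ih =>
    intro hu
    have h1 := ih (by omega)
    have h2 : M - u = (M - (u + 1)) + 1 := by omega
    rw [h2, hh_nat_succ] at h1
    rw [prod_range_succ, ← mul_assoc, ← h1]
    have h3 : ((M - (u + 1) : ℕ) : ℝ) = (M : ℝ) - u - 1 := by
      rw [Nat.cast_sub hu]; push_cast; ring
    rw [h3]
    have h4 : (0 : ℝ) < (M : ℝ) - u := by
      have : ((u + 1 : ℕ) : ℝ) ≤ M := by exact_mod_cast hu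
      push_cast at this
      linarith
    have h5 : (0 : ℝ) < (M : ℝ) + m - u := by
      have : (0 : ℝ) ≤ m := Nat.cast_nonneg m
      linarith
    have e1 : (M : ℝ) - u - 1 + 1 = (M : ℝ) - u := by ring
    have e2 : (M : ℝ) - u - 1 + m + 1 = (M : ℝ) + m - u := by ring
    rw [e1, e2]
    field_simp

theorem NN_m (m M j : ℕ) (hm : 1 ≤ m) (hmj : m ≤ j) (hjM : j ≤ M) :
    ((M + m).factorial : ℝ) * NN m ((m - 1) * M + j) =
      (m.factorial : ℝ) * M.factorial * gg m M (M - j) := by
  set J := M - j with hJ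
  set u := J / m with hu
  set ρ := J % m with hρ
  have h1 : m * u + ρ = J := Nat.div_add_mod J m
  have hρm : ρ < m := Nat.mod_lt _ (by omega)
  have huJ : u ≤ J := Nat.div_le_self _ _
  have huM : u < M := by
    have : J + m ≤ M := by omega
    omega
  have hk : (m - 1) * M + j + J = m * M := by
    obtain ⟨a, rfl⟩ : ∃ a, m = a + 1 := ⟨m - 1, by omega⟩
    rw [Nat.add_sub_cancel, Nat.add_one_mul]
    omega
  have hsplit : m * M = m * (M - u) + m * u := by
    rw [← Nat.mul_add]
    congr 1
    omega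
  have hprod := hh_prod m M
  rw [NN_eq m _ hm]
  unfold gg
  rw [← hu, ← hρ]
  have hMu : ((M - u : ℕ) : ℝ) = (M : ℝ) - u := by rw [Nat.cast_sub huM.le]
  have hMu0 : (0 : ℝ) < (M : ℝ) - u := by
    have : (u : ℝ) < M := by exact_mod_cast huM
    linarith
  have hm0 : (0 : ℝ) < m := by exact_mod_cast hm
  rcases Nat.eq_zero_or_pos ρ with h0 | h0
  · -- ρ = 0
    have hk2 : (m - 1) * M + j = m * (M - u) := by omega
    have ed : ((m - 1) * M + j) / m = M - u := by
      rw [hk2]
      exact Nat.mul_div_cancel_left _ (by omega)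
    have em : ((m - 1) * M + j) % m = 0 := by
      rw [hk2]
      exact Nat.mul_mod_right _ _
    rw [ed, em, h0, ← mul_assoc, hprod u huM.le, hMu]
    push_cast
    have h5 : (m : ℝ) + ((M : ℝ) - u) + 1 ≠ 0 := by positivity
    have h6 : ((M : ℝ) - u + ((m : ℝ) + 1) / (0 + 1)) / ((m : ℝ) + ((M : ℝ) - u) + 1) = 1 := by
      rw [div_eq_one_iff_eq h5]
      ring
    rw [h6]
    ring
  · have hk2 : (m - 1) * M + j = m * (M - u - 1) + (m - ρ) := by
      have h7 : m * (M - u) = m * (M - u - 1) + m := by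
        obtain ⟨b, hb⟩ : ∃ b, M - u = b + 1 := ⟨M - u - 1, by omega⟩
        rw [hb, Nat.add_sub_cancel]
        ring
      omega
    have ed : ((m - 1) * M + j) / m = M - u - 1 := by
      rw [hk2, Nat.mul_add_div (by omega), Nat.div_eq_of_lt (by omega), add_zero]
    have em : ((m - 1) * M + j) % m = m - ρ := by
      rw [hk2, Nat.mul_add_mod, Nat.mod_eq_of_lt (by omega)]
    rw [ed, em]
    have h8 := hprod u huM.le
    have h9 : M - u = (M - u - 1) + 1 := by omega
    rw [h9, hh_nat_succ] at h8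
    have h10 : ((M - u - 1 : ℕ) : ℝ) = (M : ℝ) - u - 1 := by
      have : M - u - 1 = M - (u + 1) := by omega
      rw [this, Nat.cast_sub (by omega)]
      push_cast
      ring
    have h11 : ((m - ρ : ℕ) : ℝ) = (m : ℝ) - ρ := by rw [Nat.cast_sub hρm.le]
    have h12 : (0 : ℝ) < (m : ℝ) - ρ + 1 := by
      have : (ρ : ℝ) < m := by exact_mod_cast hρm
      linarith
    rw [← mul_assoc (((m.factorial : ℝ) * M.factorial)), ← h8, h10, h11]
    have e1 : (M : ℝ) - u - 1 + 1 = (M : ℝ) - u := by ring
    have e2 : (M : ℝ) - u - 1 + m + 1 = (M : ℝ) - u + m := by ring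
    have e3 : (m : ℝ) + ((M : ℝ) - u - 1) + 1 = (M : ℝ) - u + m := by ring
    rw [e1, e2, e3]
    have h13 : (0 : ℝ) < (M : ℝ) - u + m := by linarith
    field_simp
    ring

theorem NN_M (m M j : ℕ) (hm : 1 ≤ m) (hmj : m ≤ j) (hjM : j ≤ M) :
    ((M + m).factorial : ℝ) * NN M ((m - 1) * M + j) =
      (m.factorial : ℝ) * M.factorial * ss m M (M - j) := by
  rw [NN_eq M _ (by omega)]
  unfold ss
  obtain ⟨a, rfl⟩ : ∃ a, m = a + 1 := ⟨m - 1, by omega⟩
  rw [Nat.add_sub_cancel, Nat.cast_sub hjM]
  have hj1 : (0 : ℝ) < (j : ℝ) + 1 := by positivity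
  rcases Nat.lt_or_ge j M with h | h
  · have ed : (a * M + j) / M = a := by
      rw [Nat.mul_comm, Nat.mul_add_div (by omega), Nat.div_eq_of_lt h, add_zero]
    have em : (a * M + j) % M = j := by
      rw [Nat.mul_comm, Nat.mul_add_mod, Nat.mod_eq_of_lt h]
    rw [ed, em]
    have h1 := hh_fac M a
    have h2 : M + (a + 1) = (a + M) + 1 := by ring
    rw [h2, Nat.factorial_succ, Nat.factorial_succ]
    push_cast
    have h3 : ((a : ℝ) + M + 1) ≠ 0 := by positivity
    have h4 : (M : ℝ) + a + 1 = (a : ℝ) + M + 1 := by ring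
    rw [h4]
    have h5 : (M : ℝ) - (M - j) + 1 = (j : ℝ) + 1 := by ring
    rw [h5]
    calc ((a : ℝ) + M + 1) * ((a + M).factorial : ℝ) *
          (hh M a * (((a : ℝ) + ((M : ℝ) + 1) / ((j : ℝ) + 1)) / ((a : ℝ) + M + 1)))
        = (((a + M).factorial : ℝ) * hh M a) * ((a : ℝ) + ((M : ℝ) + 1) / ((j : ℝ) + 1)) *
          (((a : ℝ) + M + 1) / ((a : ℝ) + M + 1)) := by ring
      _ = ((M.factorial : ℝ) * a.factorial) * ((a : ℝ) + ((M : ℝ) + 1) / ((j : ℝ) + 1)) := by
          rw [div_self h3, h1, mul_one]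
      _ = _ := by
          have h6 : (a : ℝ) + 1 ≠ 0 := by positivity
          field_simp
          ring
  · have hjM' : j = M := by omega
    subst hjM'
    have e : a * j + j = j * (a + 1) := by ring
    have ed : (a * j + j) / j = a + 1 := by
      rw [e]
      exact Nat.mul_div_cancel_left _ (by omega)
    have em : (a * j + j) % j = 0 := by
      rw [e]
      exact Nat.mul_mod_right _ _
    rw [ed, em]
    have h1 := hh_fac j (a + 1)
    have h2 : j + (a + 1) = (a + 1) + j := by ring
    rw [h2, ← mul_assoc, h1]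
    push_cast
    have h5 : (j : ℝ) + ((a : ℝ) + 1) + 1 ≠ 0 := by positivity
    have h6 : ((a : ℝ) + 1 + ((j : ℝ) + 1) / (0 + 1)) / ((j : ℝ) + ((a : ℝ) + 1) + 1) = 1 := by
      rw [div_eq_one_iff_eq h5]
      ring
    rw [h6]
    ring

/-- `(M+m)! max(NN m k, NN M k) ≤ VV m M j` for `k = (m-1)M + j` -/
theorem NN_le_VV (m M j : ℕ) (hm : 1 ≤ m) (hmj : m ≤ j) (hjM : j ≤ M) :
    ((M + m).factorial : ℝ) * max (NN m ((m - 1) * M + j)) (NN M ((m - 1) * M + j)) ≤
      VV m M j := by
  rw [mul_max_of_nonneg _ _ (Nat.cast_nonneg _), NN_m m M j hm hmj hjM, NN_M m M j hm hmj hjM]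
  unfold VV
  refine le_trans ?_ (le_max_left _ _)
  rw [mul_max_of_nonneg _ _ (by positivity)]

/-! ### the box case for orders -/

open scoped Classical in
/-- at least `m` minimal and at least `m` maximal points -/
theorem box_case (hBox : Box) (m M j : ℕ) (hm : 2 ≤ m) (hM : 3 * m ≤ M) (hmj : m ≤ j)
    (hjM : j ≤ M) (r : Fin (M + m) → Fin (M + m) → Prop) (hirr : ∀ x, ¬ r x x)
    (hk : cp r univ = (m - 1) * M + j) (h1 : m ≤ (mins r univ).card)
    (h2 : m ≤ (mins (fun a b => r b a) univ).card) :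
    ((extSet r).ncard : ℝ) ≤ VV m M j := by
  rw [extSet_ncard r hirr]
  set S : Finset (Fin (M + m)) := univ with hS
  have hScard : S.card = M + m := by rw [hS, card_univ, Fintype.card_fin]
  set u : Multiset ℕ := S.val.map (ups r S) with hu
  set s : Multiset ℕ := u.filter (fun x => 0 < x) with hs
  have hsum : s.sum = cp r S := by
    rw [← sum_ups r S, ← hu, hs]
    have h3 : (u.filter (fun x => ¬ 0 < x)).sum = 0 := by
      apply Multiset.sum_eq_zero
      intro x hx
      have := Multiset.of_mem_filter hx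
      omega
    have h4 := Multiset.filter_add_not (fun x => 0 < x) u
    have h5 := congrArg Multiset.sum h4
    rw [Multiset.sum_add, h3, add_zero] at h5
    exact h5
  have hpos : ∀ x ∈ s, 0 < x := fun x hx => Multiset.of_mem_filter hx
  have hcard : s.card ≤ M := by
    set A : Finset (Fin (M + m)) := S.filter (fun x => 0 < ups r S x) with hA
    have hsA : s.card = A.card := by
      rw [hs, hu, Multiset.filter_map, Multiset.card_map]
      rfl
    have hdis : Disjoint A (mins (fun a b => r b a) S) := by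
      rw [Finset.disjoint_left]
      intro x hx hx2
      rw [hA, Finset.mem_filter] at hx
      obtain ⟨v, hv⟩ := Finset.card_pos.mp hx.2
      rw [Finset.mem_filter] at hv
      exact ((mem_mins (r := fun a b => r b a)).1 hx2).2 v hv.1 hv.2
    have h6 : A.card + (mins (fun a b => r b a) S).card ≤ S.card := by
      rw [← Finset.card_union_of_disjoint hdis]
      exact Finset.card_le_card (Finset.subset_univ _)
    omega
  have hsup : s.sup ≤ M := by
    rw [Multiset.sup_le]
    intro y hy
    have hy1 := Multiset.mem_of_mem_filter hy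
    rw [hu, Multiset.mem_map] at hy1
    obtain ⟨x, hx, rfl⟩ := hy1
    refine (a9_ups_le r hx).trans ?_
    have h7 : (mins r S) ⊆ S := Finset.subset_univ _
    rw [Finset.card_sdiff_of_subset h7]
    omega
  have hsum' : s.sum = (m - 1) * M + j := by rw [hsum, hk]
  have e2 : (m - 1) * (M + 1) = (m - 1) * M + (m - 1) := by ring
  have e3 : m * M = (m - 1) * M + M := by
    obtain ⟨a, rfl⟩ : ∃ a, m = a + 1 := ⟨m - 1, by omega⟩
    rw [Nat.add_sub_cancel]
    ring
  have h3 := hBox m M s hm hM hpos hcard hsup (by omega) (by omega)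
  have h4 := lin_le_psi r S
  rw [← hu, ← psi_filter_pos u, ← hs, hScard] at h4
  refine h4.trans ?_
  refine (mul_le_mul_of_nonneg_left h3 (Nat.cast_nonneg _)).trans ?_
  rw [hsum']
  exact NN_le_VV m M j (by omega) hmj hjM

open scoped Classical in
/-- the upper bound on level `m = l + 1`, `M ≥ 30 m` -/
theorem upper_thin (hBox : Box) (M : ℕ) : ∀ l : ℕ, 3 * (l + 1) ≤ M → ∀ j, l + 1 ≤ j → j ≤ M →
    UB (M + (l + 1)) (l * M + j) (VV (l + 1) M j) := by
  intro l
  induction l using Nat.strong_induction_on with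
  | _ l ih =>
    intro hM j hj hjM
    rcases Nat.eq_zero_or_pos l with h0 | h0
    · subst h0
      rw [VV_one M j (by omega) hjM]
      have h := UB_one (M + 1) j
      have e : 0 * M + j = j := by simp
      rw [e]
      exact h
    · have hIH : IH l M := by
        intro s D hs1 hsl hsD hDM
        exact ih s hsl (by omega) D hsD hDM
      apply UB_of_nested
      intro r hirr htr ht hk
      obtain ⟨d, rfl⟩ : ∃ d, j = d + l := ⟨j - l, by omega⟩
      rcases Nat.lt_or_ge l (mins r univ).card with h1 | h1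
      · rcases Nat.lt_or_ge l (mins (fun a b => r b a) univ).card with h2 | h2
        · exact box_case hBox (l + 1) M (d + l) (by omega) hM hj hjM r hirr
            (by rw [Nat.add_sub_cancel]; exact hk) h1 h2
        · obtain ⟨d1, d2, -⟩ := dual_facts r
          have g1 : ∀ x, ¬ (fun a b => r b a) x x := hirr
          have g2 : ∀ a b c, (fun a b => r b a) a b → (fun a b => r b a) b c →
              (fun a b => r b a) a c := fun a b c hab hbc => htr c b a hbc hab
          have g3 : ∀ x y, tle (fun a b => r b a) x y ∨ tle (fun a b => r b a) y x := by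
            intro x y
            rcases ht x y with h | h
            · right
              exact ⟨fun z hz => h.2 z hz, fun z hz => h.1 z hz⟩
            · left
              exact ⟨fun z hz => h.2 z hz, fun z hz => h.1 z hz⟩
          have h3 := few_min l M d (by omega) (by omega) hM hIH (fun a b => r b a) g1 g2 g3
            (by rw [← hk, ← d2]) h2
          rw [d1] at h3
          exact h3
      · exact few_min l M d (by omega) (by omega) hM hIH r hirr htr ht hk h1

open scoped Classical in
/-- both bounds, level `m`; `m = 1` or `M ≥ 30 m` -/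
theorem main_thin (hBox : Box) (m M j : ℕ) (hm : 1 ≤ m) (hM : m = 1 ∨ 3 * m ≤ M)
    (hmj : m ≤ j) (hjM : j ≤ M) :
    (∀ r : Fin (M + m) → Fin (M + m) → Prop, (∀ x, ¬ r x x) →
      (∀ a b c, r a b → r b c → r a c) → cp r univ = (m - 1) * M + j →
      ((extSet r).ncard : ℝ) ≤ VV m M j) ∧
    (∃ r : Fin (M + m) → Fin (M + m) → Prop, (∀ x, ¬ r x x) ∧
      (∀ a b c, r a b → r b c → r a c) ∧ cp r univ = (m - 1) * M + j ∧
      ((extSet r).ncard : ℝ) = VV m M j) := by
  have hM1 : 1 ≤ M := by omega
  constructor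
  · intro r h1 h2 h3
    rcases hM with h | h
    · subst h
      rw [VV_one M j (by omega) hjM]
      exact UB_one (M + 1) j r h1 h2 (le_of_eq (by rw [h3]; simp))
    · obtain ⟨l, rfl⟩ : ∃ l, m = l + 1 := ⟨m - 1, by omega⟩
      exact upper_thin hBox M l h j hmj hjM r h1 h2 (le_of_eq (by rw [h3, Nat.add_sub_cancel]))
  · unfold VV
    rcases le_total ((m.factorial : ℝ) * M.factorial * max (gg m M (M - j)) (ss m M (M - j)))
      (((m - 1).factorial : ℝ) * (M + 1).factorial / ((j : ℝ) - m + 2)) with h | h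
    · rw [max_eq_right h]
      exact z1_star m M j hm hmj hjM
    · rw [max_eq_left h]
      rcases le_total (gg m M (M - j)) (ss m M (M - j)) with h' | h'
      · rw [max_eq_right h']
        exact exists_two_step m M j hm hM1 hmj hjM
      · rw [max_eq_left h']
        exact exists_near m M j hm hM1 hmj hjM

end Pool.Agent.LRP
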